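import Mathlib

set_option autoImplicit false

namespace Pool.Agent.H79Z.Shai

open Filter Topology Set Function

/-- An independent family of continuum many subsets of `ℕ`, with ultrafilters realising every
pattern. -/
theorem exists_indep : ∃ (B : (ℕ → Bool) → Set ℕ) (U : Set (ℕ → Bool) → Ultrafilter ℕ),
    ∀ S x, B x ∈ U S ↔ x ∈ S := by
  classical
  have hc : Countable (TopologicalSpace.Clopens (ℕ → Bool)) :=
    TopologicalSpace.Clopens.countable_iff_secondCountable.2 inferInstance
  obtain ⟨e, he⟩ := exists_injective_nat (TopologicalSpace.Clopens (ℕ → Bool))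
  have key : ∀ S : Set (ℕ → Bool), ∃ F : Ultrafilter (TopologicalSpace.Clopens (ℕ → Bool)),
      ∀ x, {c : TopologicalSpace.Clopens (ℕ → Bool) | x ∈ c ↔ x ∈ S} ∈ F := by
    intro S
    obtain ⟨F, hF⟩ := Ultrafilter.exists_ultrafilter_of_finite_inter_nonempty
      (range fun x => {c : TopologicalSpace.Clopens (ℕ → Bool) | x ∈ c ↔ x ∈ S}) (by
        intro T hT
        choose f hf using fun t : T => hT t.2
        have h1 : (range f ∩ S).Finite := (finite_range f).inter_of_left _
        have h2 : (range f \ S).Finite := (finite_range f).sdiff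
        obtain ⟨C, hC, hZ, hU⟩ := exists_clopen_of_closed_subset_open h1.isClosed
          h2.isClosed.isOpen_compl (by
            rintro x ⟨_, hx⟩ ⟨_, hx'⟩
            exact hx' hx)
        refine ⟨⟨C, hC⟩, ?_⟩
        intro t ht
        have h3 : t = _ := (hf ⟨t, ht⟩).symm
        rw [h3]
        change f ⟨t, ht⟩ ∈ C ↔ _
        constructor
        · intro h
          by_contra h'
          exact hU h ⟨mem_range_self _, h'⟩
        · intro h
          exact hZ ⟨mem_range_self _, h⟩)
    exact ⟨F, fun x => hF (mem_range_self x)⟩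
  choose F hF using key
  refine ⟨fun x => e '' {c | x ∈ c}, fun S => (F S).map e, fun S x => ?_⟩
  rw [Ultrafilter.mem_map, preimage_image_eq _ he]
  constructor
  · intro h
    obtain ⟨c, h1, h2⟩ := Ultrafilter.nonempty_of_mem (inter_mem h (hF S x))
    exact h2.1 h1
  · intro h
    exact mem_of_superset (hF S x) fun c hc => hc.2 h

variable {𝕜 : Type*} [RCLike 𝕜] {Y : Type*} [NormedAddCommGroup Y] [NormedSpace 𝕜 Y]

/-- Limit along an ultrafilter of a bounded sequence of functionals. -/
theorem exists_ulim (U : Ultrafilter ℕ) (g : ℕ → StrongDual 𝕜 Y) (C : ℝ) (hg : ∀ i, ‖g i‖ ≤ C) :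
    ∃ f : StrongDual 𝕜 Y, ∀ y, Tendsto (fun i => g i y) U (𝓝 (f y)) := by
  have h : ∀ y, ∃ a, ‖a‖ ≤ C * ‖y‖ ∧ Tendsto (fun i => g i y) U (𝓝 a) := by
    intro y
    obtain ⟨a, ha, h⟩ := (isCompact_closedBall (0 : 𝕜) (C * ‖y‖)).ultrafilter_le_nhds'
      (U.map fun i => g i y) (by
        rw [Ultrafilter.mem_map]
        refine univ_mem' fun i => ?_
        simp only [mem_preimage, mem_closedBall_zero_iff]
        exact ((g i).le_opNorm y).trans (by gcongr; exact hg i))
    exact ⟨a, by simpa using ha, h⟩
  choose f hf1 hf2 using h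
  refine ⟨LinearMap.mkContinuous
    { toFun := f
      map_add' := fun y z => tendsto_nhds_unique (hf2 (y + z))
        (by simpa using (hf2 y).add (hf2 z))
      map_smul' := fun a y => tendsto_nhds_unique (hf2 (a • y))
        (by simpa using (hf2 y).const_mul a) } C hf1, hf2⟩

/-- Continuum many orthogonal idempotents with an upper `c₀` estimate produce `2 ^ 𝔠` operators. -/
theorem many_ops [CompleteSpace Y] (π : (ℕ → Bool) → Y →L[𝕜] Y) (C : ℝ) (hC : 0 < C)
    (hne : ∀ r, π r ≠ 0) (hidem : ∀ r, π r * π r = π r)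
    (horth : ∀ r s, r ≠ s → π r * π s = 0) (hb : ∀ r, ‖π r‖ ≤ C)
    (hc0 : ∀ (F : Finset (ℕ → Bool)) (y : (ℕ → Bool) → Y) (δ : ℝ), 0 ≤ δ → (∀ r ∈ F, ‖y r‖ ≤ δ) →
      ‖∑ r ∈ F, π r (y r)‖ ≤ C * δ)
    (hsub : ∀ J : Set (ℕ → Bool), J.Infinite → ∃ u : ℕ → (ℕ → Bool), (∀ i, u i ∈ J) ∧
      ∀ B : Set ℕ, ∃ T : Y →L[𝕜] Y, ∀ i, (i ∈ B → π (u i) * T = π (u i)) ∧
        (i ∉ B → π (u i) * T = 0)) :
    ∃ F : Set (ℕ → Bool) → (Y →L[𝕜] Y), Injective F := by
  classical
  have hid : ∀ r y, π r (π r y) = π r y := fun r y => by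
    simpa using congrArg (fun T : Y →L[𝕜] Y => T y) (hidem r)
  by_cases hcase : ∀ (y : Y) (δ : ℝ), 0 < δ → {r | δ ≤ ‖π r y‖}.Finite
  · have hsum : ∀ (S : Set (ℕ → Bool)) (y : Y),
        Summable fun r => if r ∈ S then π r y else 0 := by
      intro S y
      rw [summable_iff_vanishing_norm]
      intro ε hε
      have hδ : 0 < ε / (2 * C) := by positivity
      refine ⟨(hcase y _ hδ).toFinset, fun t ht => ?_⟩
      have h1 : ∑ r ∈ t, (if r ∈ S then π r y else 0) =
          ∑ r ∈ t, π r (if r ∈ S then π r y else 0) := by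
        refine Finset.sum_congr rfl fun r _ => ?_
        split_ifs <;> simp [hid]
      rw [h1]
      refine (hc0 t _ _ hδ.le fun r hr => ?_).trans_lt ?_
      · have : r ∉ (hcase y _ hδ).toFinset := Finset.disjoint_left.1 ht hr
        simp only [Finite.mem_toFinset, mem_ofPred_eq, not_le] at this
        split_ifs
        · exact this.le
        · simpa using hδ.le
      · have : C * (ε / (2 * C)) = ε / 2 := by field_simp
        rw [this]; linarith
    have hbd : ∀ (S : Set (ℕ → Bool)) (y : Y),
        ‖∑' r, if r ∈ S then π r y else 0‖ ≤ (C * C) * ‖y‖ := by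
      intro S y
      refine le_of_tendsto' (hsum S y).hasSum.norm fun t => ?_
      have h1 : ∑ r ∈ t, (if r ∈ S then π r y else 0) =
          ∑ r ∈ t, π r (if r ∈ S then π r y else 0) := by
        refine Finset.sum_congr rfl fun r _ => ?_
        split_ifs <;> simp [hid]
      rw [h1, mul_assoc]
      refine hc0 t _ _ (by positivity) fun r _ => ?_
      split_ifs
      · exact ((π r).le_opNorm y).trans (by gcongr; exact hb r)
      · simp only [norm_zero]; positivity
    let T : Set (ℕ → Bool) → (Y →L[𝕜] Y) := fun S => LinearMap.mkContinuous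
      { toFun := fun y => ∑' r, if r ∈ S then π r y else 0
        map_add' := fun y z => by
          rw [← (hsum S y).tsum_add (hsum S z)]
          refine tsum_congr fun r => ?_
          split_ifs <;> simp
        map_smul' := fun a y => by
          rw [RingHom.id_apply, ← (hsum S y).tsum_const_smul a]
          refine tsum_congr fun r => ?_
          split_ifs <;> simp } (C * C) (hbd S)
    have hT : ∀ S s y, π s (T S y) = if s ∈ S then π s y else 0 := by
      intro S s y
      change π s (∑' r, if r ∈ S then π r y else 0) = _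
      rw [(π s).map_tsum (hsum S y), tsum_eq_single s]
      · split_ifs <;> simp [hid]
      · intro r hr
        split_ifs
        · simpa using congrArg (fun T : Y →L[𝕜] Y => T y) (horth s r (Ne.symm hr))
        · simp
    refine ⟨T, fun S S' h => ?_⟩
    ext s
    obtain ⟨y, hy⟩ : ∃ y, π s y ≠ 0 := by
      by_contra h'
      push Not at h'
      exact hne s (ContinuousLinearMap.ext h')
    have h1 := hT S s y
    rw [h, hT S' s y] at h1
    by_cases h2 : s ∈ S <;> by_cases h3 : s ∈ S' <;> simp_all
  · push Not at hcase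
    obtain ⟨y, δ, hδ, hinf⟩ := hcase
    obtain ⟨u, hu, hB⟩ := hsub _ hinf
    have hz : ∀ i, ∃ z : StrongDual 𝕜 Y, ‖z‖ ≤ δ⁻¹ * C ∧ (∀ w, π (u i) w = 0 → z w = 0) ∧
        (∀ w, π (u i) w = π (u i) y → z w = 1) := by
      intro i
      have hi : δ ≤ ‖π (u i) y‖ := hu i
      have hpos : 0 < ‖π (u i) y‖ := hδ.trans_le hi
      obtain ⟨g, hg1, hg2⟩ := exists_dual_vector 𝕜 (π (u i) y) hpos.ne'
      refine ⟨((‖π (u i) y‖ : 𝕜)⁻¹) • (g.comp (π (u i))), ?_, ?_, ?_⟩
      · rw [norm_smul, norm_inv, RCLike.norm_ofReal, abs_of_pos hpos]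
        refine mul_le_mul (inv_anti₀ hδ hi) ?_ (norm_nonneg _) (by positivity)
        refine (ContinuousLinearMap.opNorm_comp_le _ _).trans ?_
        rw [hg1, one_mul]; exact hb _
      · intro w hw; simp [hw]
      · intro w hw
        have : (‖π (u i) y‖ : 𝕜) ≠ 0 := by exact_mod_cast hpos.ne'
        simp [hw, hg2, this]
    choose z hz1 hz2 hz3 using hz
    obtain ⟨B, U, hBU⟩ := exists_indep
    choose f hf using fun S => exists_ulim (U S) z _ hz1
    choose T hT using hB
    have hy : y ≠ 0 := by
      rintro rfl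
      have : δ ≤ ‖π (u 0) 0‖ := hu 0
      simp at this; linarith
    have hval : ∀ S x, f S (T (B x) y) = if x ∈ S then 1 else 0 := by
      intro S x
      refine tendsto_nhds_unique (hf S _) ?_
      split_ifs with hx
      · refine tendsto_const_nhds.congr' ?_
        filter_upwards [(hBU S x).2 hx] with i hi
        refine (hz3 i _ ?_).symm
        simpa using congrArg (fun T : Y →L[𝕜] Y => T y) ((hT (B x) i).1 hi)
      · refine tendsto_const_nhds.congr' ?_
        have : (B x)ᶜ ∈ U S := Ultrafilter.compl_mem_iff_notMem.2 fun h => hx ((hBU S x).1 h)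
        filter_upwards [this] with i hi
        refine (hz2 i _ ?_).symm
        simpa using congrArg (fun T : Y →L[𝕜] Y => T y) ((hT (B x) i).2 hi)
    refine ⟨fun S => (f S).smulRight y, fun S S' h => ?_⟩
    ext x
    have h1 := congrArg (fun A : Y →L[𝕜] Y => A (T (B x) y)) h
    simp only [ContinuousLinearMap.smulRight_apply, hval] at h1
    by_cases h2 : x ∈ S <;> by_cases h3 : x ∈ S' <;> simp_all

/-- On a separable space there are at most continuum many operators. -/
theorem not_many_ops {X : Type*} [NormedAddCommGroup X] [NormedSpace 𝕜 X]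
    [TopologicalSpace.SeparableSpace X] (F : Set (ℕ → Bool) → (X →L[𝕜] X)) : ¬ Injective F := by
  intro hF
  let d := TopologicalSpace.denseSeq X
  have hd : DenseRange d := TopologicalSpace.denseRange_denseSeq X
  let G : (X →L[𝕜] X) → (ℕ × ℕ → ℝ) := fun T p => dist (T (d p.1)) (d p.2)
  have hG : Injective G := by
    intro S T h
    have h1 : ∀ i, S (d i) = T (d i) := by
      intro i
      have h2 : (fun z => dist (S (d i)) z) = fun z => dist (T (d i)) z :=
        hd.equalizer (by fun_prop) (by fun_prop) (funext fun j => congrFun h (i, j))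
      have h3 := congrFun h2 (T (d i))
      simpa using h3
    have h4 : (S : X → X) = T := hd.equalizer S.continuous T.continuous (funext h1)
    exact DFunLike.coe_injective h4
  have h := Cardinal.mk_le_of_injective (hG.comp hF)
  simp only [Cardinal.mk_set, Cardinal.mk_pi, Cardinal.prod_const, Cardinal.mk_fintype,
    Fintype.card_bool, Cardinal.mk_eq_aleph0, Cardinal.lift_id, Cardinal.mk_real,
    Cardinal.continuum_power_aleph0, Nat.cast_ofNat, Cardinal.two_power_aleph0] at h
  exact (Cardinal.cantor _).not_ge h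

end Pool.Agent.H79Z.Shai
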