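import Pool.Agent.H79Z.ShaiA

set_option autoImplicit false

namespace Pool.Agent.H79Z.Shai

open Filter Topology Set Function
open scoped BoundedContinuousFunction

/-- An almost disjoint family indexed by the Cantor set, in which every infinite subfamily has a
discrete subsequence. -/
theorem exists_ad : ∃ A : (ℕ → Bool) → Set ℕ, (∀ r, (A r).Infinite) ∧
    (∀ r s, r ≠ s → (A r ∩ A s).Finite) ∧
    ∀ J : Set (ℕ → Bool), J.Infinite → ∃ u : ℕ → (ℕ → Bool), (∀ i, u i ∈ J) ∧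
      ∀ i, (A (u i) ∩ ⋃ j ∈ {j | j ≠ i}, A (u j)).Finite := by
  obtain ⟨e, he⟩ := exists_injective_nat (Σ n : ℕ, Fin n → Bool)
  let code : (ℕ → Bool) → ℕ → ℕ := fun r n => e ⟨n, fun i => r i⟩
  have hsub : ∀ r s j, r j ≠ s j → range (code r) ∩ range (code s) ⊆ code r '' Iic j := by
    rintro r s j hj _ ⟨⟨n, rfl⟩, ⟨m, hm⟩⟩
    refine ⟨n, ?_, rfl⟩
    have h1 := he hm
    obtain rfl : m = n := congrArg Sigma.fst h1
    have h2 := eq_of_heq (Sigma.mk.inj h1).2
    by_contra h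
    simp only [mem_Iic, not_le] at h
    exact hj (congrFun h2 ⟨j, h⟩).symm
  refine ⟨fun r => range (code r), fun r => infinite_range_of_injective fun n m h =>
    congrArg Sigma.fst (he h), fun r s hrs => ?_, fun J hJ => ?_⟩
  · obtain ⟨j, hj⟩ := Function.ne_iff.1 hrs
    exact ((finite_Iic j).image _).subset (hsub r s j hj)
  · obtain ⟨x, -, hx⟩ := hJ.exists_accPt_of_subset_isCompact isCompact_univ (subset_univ _)
    have h : ∀ m : ℕ, ∃ p : (ℕ → Bool) × ℕ, p.1 ∈ J ∧ m ≤ p.2 ∧ p.1 p.2 ≠ x p.2 ∧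
        ∀ k < m, p.1 k = x k := by
      intro m
      have hN : {y : ℕ → Bool | ∀ k ∈ Iio m, y k = x k} ∈ 𝓝 x := by
        have : ∀ᶠ y : ℕ → Bool in 𝓝 x, ∀ k ∈ Iio m, y k = x k := by
          rw [(finite_Iio m).eventually_all]
          intro k _
          exact ((continuous_apply k).tendsto x).eventually (isOpen_discrete {x k} |>.mem_nhds rfl)
        exact this
      obtain ⟨y, ⟨hy1, hy2⟩, hy3⟩ := accPt_iff_nhds.1 hx _ hN
      obtain ⟨k, hk⟩ := Function.ne_iff.1 hy3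
      refine ⟨(y, k), hy2, ?_, hk, hy1⟩
      by_contra h'
      exact hk (hy1 k (not_le.1 h'))
    choose g hg1 hg2 hg3 hg4 using h
    let m : ℕ → ℕ := fun i => Nat.rec 0 (fun _ a => (g a).2 + 1) i
    have hm : ∀ i, m (i + 1) = (g (m i)).2 + 1 := fun i => rfl
    have hmono : StrictMono m := strictMono_nat_of_lt_succ fun i => by
      rw [hm]; exact Nat.lt_succ_of_le (hg2 _)
    have hlt : ∀ i j, i < j → (g (m i)).2 < m j := fun i j h => by
      have := hmono.monotone (Nat.succ_le_of_lt h)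
      rw [Nat.succ_eq_add_one, hm] at this
      omega
    refine ⟨fun i => (g (m i)).1, fun i => hg1 _, fun i => ?_⟩
    refine ((finite_Iic (g (m i)).2).image (code (g (m i)).1)).subset ?_
    rintro k ⟨hk1, hk2⟩
    simp only [mem_iUnion] at hk2
    obtain ⟨j, hj, hk2⟩ := hk2
    rcases lt_or_gt_of_ne hj with h | h
    · have h1 : (g (m i)).1 (g (m j)).2 ≠ (g (m j)).1 (g (m j)).2 := by
        rw [hg4 _ _ (hlt j i h)]; exact (hg3 _).symm
      refine image_mono (Iic_subset_Iic.2 ?_) (hsub _ _ _ h1 ⟨hk1, hk2⟩)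
      exact ((hlt j i h).le).trans (hg2 _)
    · have h1 : (g (m i)).1 (g (m i)).2 ≠ (g (m j)).1 (g (m i)).2 := by
        rw [hg4 _ _ (hlt i j h)]; exact hg3 _
      exact hsub _ _ _ h1 ⟨hk1, hk2⟩

variable {𝕜 : Type*} [RCLike 𝕜] {X : Type*} [NormedAddCommGroup X] [NormedSpace 𝕜 X]
  {Y : Type*} [NormedAddCommGroup Y] [NormedSpace 𝕜 Y]
  (ψ : (X →L[𝕜] X) →ₗ[𝕜] (Y →L[𝕜] Y)) (hm : ∀ S T, ψ (S * T) = ψ S * ψ T)

include hm

theorem map_one_of_surj (hs : Surjective ψ) : ψ 1 = 1 := by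
  obtain ⟨T, hT⟩ := hs 1
  rw [← mul_one (ψ 1), ← hT, ← hm, one_mul]

/-- Automatic continuity. -/
theorem cont_of_surj [CompleteSpace X] [CompleteSpace Y] (hs : Surjective ψ) : Continuous ψ := by
  refine ψ.continuous_of_seq_closed_graph fun u x y hu hy => ?_
  by_contra hne
  obtain ⟨y0, hy0⟩ : ∃ y0, (y - ψ x) y0 ≠ 0 := by
    by_contra h
    push Not at h
    exact hne (sub_eq_zero.1 (ContinuousLinearMap.ext h))
  obtain ⟨f, -, hf⟩ := exists_dual_vector 𝕜 _ (norm_ne_zero_iff.2 hy0)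
  obtain ⟨t, ht⟩ := hs (f.smulRight y0)
  have h1 : Tendsto (fun n => ‖f ((ψ (u n) - ψ x) y0)‖) atTop (𝓝 ‖f ((y - ψ x) y0)‖) := by
    have hc : Continuous fun S : Y →L[𝕜] Y => ‖f ((S - ψ x) y0)‖ := by fun_prop
    exact (hc.tendsto y).comp hy
  have h2 : Tendsto (fun n => ‖t * (u n - x)‖) atTop (𝓝 ‖t * (x - x)‖) := by
    have hc : Continuous fun S : X →L[𝕜] X => ‖t * (S - x)‖ := by fun_prop
    exact (hc.tendsto x).comp hu
  have h3 : ‖t * (x - x)‖ < ‖f ((y - ψ x) y0)‖ := by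
    rw [hf]; simpa using hy0
  obtain ⟨n, hn⟩ := (h2.eventually_lt h1 h3).exists
  set l := f ((ψ (u n) - ψ x) y0) with hl
  have hl0 : 0 < ‖l‖ := (norm_nonneg _).trans_lt hn
  have hl1 : l ≠ 0 := norm_pos_iff.1 hl0
  have h4 : ‖l⁻¹ • (t * (u n - x))‖ < 1 := by
    rw [norm_smul, norm_inv, inv_mul_lt_iff₀ hl0]; simpa using hn
  obtain ⟨w, hw⟩ := (isUnit_one_sub_of_norm_lt_one h4).exists_left_inv
  have h5 := congrArg (fun S => ψ S y0) hw
  simp only [hm, map_sub, map_smul, map_one_of_surj ψ hm hs, ht] at h5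
  simp only [ContinuousLinearMap.mul_apply, ContinuousLinearMap.sub_apply,
    ContinuousLinearMap.smul_apply, ContinuousLinearMap.smulRight_apply,
    ContinuousLinearMap.one_apply] at h5 hl
  rw [← hl, smul_smul, inv_mul_cancel₀ hl1, one_smul, sub_self, map_zero] at h5
  exact hy0 (by rw [← h5, map_zero])

theorem rank_one (hni : ¬ Injective ψ) (f : StrongDual 𝕜 X) (x : X) : ψ (f.smulRight x) = 0 := by
  rw [injective_iff_map_eq_zero] at hni
  push Not at hni
  obtain ⟨T, hT, hT0⟩ := hni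
  obtain ⟨x0, hx0⟩ : ∃ x0, T x0 ≠ 0 := by
    by_contra h
    push Not at h
    exact hT0 (ContinuousLinearMap.ext h)
  obtain ⟨g, -, hg⟩ := exists_dual_vector 𝕜 _ (norm_ne_zero_iff.2 hx0)
  have h0 : (‖T x0‖ : 𝕜) ≠ 0 := by exact_mod_cast norm_ne_zero_iff.2 hx0
  have : f.smulRight x = g.smulRight ((‖T x0‖ : 𝕜)⁻¹ • x) * T * f.smulRight x0 := by
    ext z
    simp [hg, smul_smul, h0, mul_assoc]
  rw [this, hm, hm, hT, mul_zero, zero_mul]

/-- The counting step. -/
theorem step [CompleteSpace X] [CompleteSpace Y] [TopologicalSpace.SeparableSpace X]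
    [Nontrivial Y] (hs : Surjective ψ) (P : Set ℕ → (X →L[𝕜] X)) (C : ℝ) (hC : 0 ≤ C)
    (hmul : ∀ S T, P S * P T = P (S ∩ T)) (hb : ∀ S, ‖P S‖ ≤ C)
    (hfin : ∀ S, S.Finite → ψ (P S) = 0)
    (hc0 : ∀ (F : Finset (ℕ → Bool)) (S : (ℕ → Bool) → Set ℕ) (m : ℕ),
      (∀ i ∈ F, ∀ j ∈ F, i ≠ j → S i ∩ S j ⊆ Iio m) → ∀ (x : (ℕ → Bool) → X) (δ : ℝ), 0 ≤ δ →
      (∀ i ∈ F, ‖x i‖ ≤ δ) → ‖∑ i ∈ F, (P (S i) - P (S i ∩ Iio m)) (x i)‖ ≤ C * δ) :
    ∃ S : Set ℕ, S.Infinite ∧ ψ (P S) = 0 := by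
  classical
  by_contra hcon
  push Not at hcon
  obtain ⟨A, hA1, hA2, hA3⟩ := exists_ad
  let Ψ : (X →L[𝕜] X) →L[𝕜] (Y →L[𝕜] Y) := ⟨ψ, cont_of_surj ψ hm hs⟩
  have hΨ : ∀ S, ‖ψ S‖ ≤ ‖Ψ‖ * ‖S‖ := fun S => Ψ.le_opNorm S
  obtain ⟨y0, hy0⟩ := exists_ne (0 : Y)
  let ev : (X →L[𝕜] X) →L[𝕜] Y := (ContinuousLinearMap.apply 𝕜 Y y0).comp Ψ
  have hev : Surjective ev := by
    intro y
    obtain ⟨g, -, hg⟩ := exists_dual_vector 𝕜 _ (norm_ne_zero_iff.2 hy0)
    have h0 : (‖y0‖ : 𝕜) ≠ 0 := by exact_mod_cast norm_ne_zero_iff.2 hy0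
    obtain ⟨t, ht⟩ := hs (g.smulRight ((‖y0‖ : 𝕜)⁻¹ • y))
    refine ⟨t, ?_⟩
    change ψ t y0 = y
    simp [ht, hg, smul_smul, h0]
  obtain ⟨M, hM, hMM⟩ := ev.exists_preimage_norm_le hev
  choose s hs1 hs2 using hMM
  have hs1' : ∀ y, ψ (s y) y0 = y := hs1
  obtain ⟨F, hF⟩ := many_ops (fun r => ψ (P (A r))) (‖Ψ‖ * C * (M * ‖y0‖ + 1) + 1)
    (by positivity) (fun r => hcon _ (hA1 r)) (fun r => by rw [← hm, hmul, inter_self])
    (fun r s h => by rw [← hm, hmul, hfin _ (hA2 r s h)])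
    (fun r => by
      refine (hΨ _).trans ?_
      have h1 : ‖Ψ‖ * ‖P (A r)‖ ≤ ‖Ψ‖ * C := by gcongr; exact hb _
      have h2 : 0 ≤ ‖Ψ‖ * C * (M * ‖y0‖) := by positivity
      nlinarith)
    (fun F y δ hδ hy => by
      have hfin' : (⋃ i ∈ F, ⋃ j ∈ F.erase i, A i ∩ A j).Finite :=
        F.finite_toSet.biUnion fun i _ => (F.erase i).finite_toSet.biUnion fun j hj =>
          hA2 i j (Finset.ne_of_mem_erase hj).symm
      obtain ⟨m, hm'⟩ := hfin'.bddAbove
      have h1 : ∀ i ∈ F, ∀ j ∈ F, i ≠ j → A i ∩ A j ⊆ Iio (m + 1) := by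
        intro i hi j hj hij k hk
        refine Nat.lt_succ_of_le (hm' ?_)
        simp only [mem_iUnion]
        exact ⟨i, hi, j, Finset.mem_erase.2 ⟨hij.symm, hj⟩, hk⟩
      have h2 : ∑ r ∈ F, ψ (P (A r)) (y r) =
          ψ (∑ r ∈ F, (P (A r) - P (A r ∩ Iio (m + 1))) * s (y r)) y0 := by
        rw [map_sum, ContinuousLinearMap.sum_apply]
        refine Finset.sum_congr rfl fun r _ => ?_
        rw [hm, map_sub, hfin _ ((finite_Iio _).inter_of_right _), sub_zero,
          ContinuousLinearMap.mul_apply, hs1']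
      have h3 : ‖∑ r ∈ F, (P (A r) - P (A r ∩ Iio (m + 1))) * s (y r)‖ ≤ C * (M * δ) := by
        refine ContinuousLinearMap.opNorm_le_bound _ (by positivity) fun x => ?_
        rw [ContinuousLinearMap.sum_apply, mul_assoc]
        refine hc0 F A (m + 1) h1 (fun r => s (y r) x) _ (by positivity) fun i hi => ?_
        refine ((s (y i)).le_opNorm x).trans ?_
        gcongr
        exact (hs2 _).trans (by gcongr; exact hy i hi)
      rw [h2]
      refine ((ψ _).le_opNorm y0).trans ?_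
      calc _ ≤ ‖Ψ‖ * (C * (M * δ)) * ‖y0‖ := by
            gcongr
            exact (hΨ _).trans (by gcongr)
        _ ≤ _ := by
            have h4 : 0 ≤ ‖Ψ‖ * C * δ := by positivity
            nlinarith)
    (fun J hJ => by
      obtain ⟨u, hu1, hu2⟩ := hA3 J hJ
      refine ⟨u, hu1, fun B => ⟨ψ (P (⋃ j ∈ B, A (u j))), fun i => ⟨fun hi => ?_, fun hi => ?_⟩⟩⟩
      · rw [← hm, hmul, inter_eq_left.2 (subset_biUnion_of_mem (u := fun j => A (u j)) hi)]
      · rw [← hm, hmul]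
        refine hfin _ ((hu2 i).subset (inter_subset_inter_right _ (biUnion_subset_biUnion_left ?_)))
        rintro j hj rfl
        exact hi hj)
  exact not_many_ops (𝕜 := 𝕜) (X := X) (fun S => surjInv hs (F S))
    ((injective_surjInv hs).comp hF)

omit hm in
/-- Closure rules for a class of continuous self-maps of a space. -/
structure Rules {K : Type*} [TopologicalSpace K] (Z : C(K, K) → Prop) : Prop where
  fin : ∀ g : C(K, K), (range g).Finite → Z g
  comp : ∀ g a b : C(K, K), Z g → Z (a.comp (g.comp b))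
  glue : ∀ g a b c : C(K, K), Z a → Z b → Z c →
    (∀ x, (g x = b x ∧ a x = c x) ∨ (g x = c x ∧ a x = b x)) → Z g
  step : ∀ ρ : Set ℕ → C(K, K), (∀ S T, (ρ S).comp (ρ T) = ρ (S ∩ T)) →
    (∀ S T m x, S ∩ T ⊆ Iio m → ρ S x = ρ (S ∩ Iio m) x ∨ ρ T x = ρ (T ∩ Iio m) x) →
    (∀ S, S.Finite → Z (ρ S)) → ∃ S, S.Infinite ∧ Z (ρ S)

theorem rules [CompleteSpace X] [CompleteSpace Y] [TopologicalSpace.SeparableSpace X]
    [Nontrivial Y] (hs : Surjective ψ) (hni : ¬ Injective ψ)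
    {K : Type*} [TopologicalSpace K] [T1Space K]
    (α : (K →ᵇ 𝕜) →L[𝕜] X) (β : X →L[𝕜] (K →ᵇ 𝕜)) (hβα : ∀ f, β (α f) = f) :
    Rules fun g : C(K, K) =>
      ψ (α ∘L BoundedContinuousFunction.compContinuousCLM 𝕜 𝕜 g ∘L β) = 0 := by
  classical
  set θ : C(K, K) → (X →L[𝕜] X) := fun g =>
    α ∘L BoundedContinuousFunction.compContinuousCLM 𝕜 𝕜 g ∘L β with hθ
  have hθ1 : ∀ g x, θ g x = α ((β x).compContinuous g) := fun g x => rfl
  have hθm : ∀ g h, θ g * θ h = θ (h.comp g) := by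
    intro g h
    ext x
    rw [ContinuousLinearMap.mul_apply, hθ1, hθ1, hθ1, hβα]
    rfl
  change Rules fun g => ψ (θ g) = 0
  refine ⟨fun g hg => ?_, fun g a b hg => ?_, fun g a b c ha hb hc h => ?_,
    fun ρ h1 h2 h3 => ?_⟩
  · have hcl : ∀ v, IsClopen (g ⁻¹' {v}) := by
      intro v
      refine ⟨isClosed_singleton.preimage g.continuous, ?_⟩
      have : g ⁻¹' {v} = g ⁻¹' (range g \ {v})ᶜ := by
        ext x; simp
      rw [this]
      exact hg.sdiff.isClosed.isOpen_compl.preimage g.continuous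
    have hind : ∀ v, ∃ e : K →ᵇ 𝕜, ∀ z, e z = if g z = v then 1 else 0 := by
      intro v
      refine ⟨BoundedContinuousFunction.ofNormedAddCommGroup ((g ⁻¹' {v}).indicator 1)
        (continuous_indicator (by simp [hcl v]) continuous_const.continuousOn) 1 fun z => ?_,
        fun z => ?_⟩
      · by_cases hz : z ∈ g ⁻¹' {v} <;> simp [hz]
      · simp [Set.indicator_apply]
    choose e he using hind
    have : θ g = ∑ v ∈ hg.toFinset, ((BoundedContinuousFunction.evalCLM 𝕜 v).comp β).smulRight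
        (α (e v)) := by
      ext x
      rw [hθ1, ContinuousLinearMap.sum_apply]
      simp only [ContinuousLinearMap.smulRight_apply, ← map_smul, ← map_sum]
      congr 1
      ext z
      rw [BoundedContinuousFunction.sum_apply, Finset.sum_eq_single (g z)]
      · simp [he]
      · intro v _ hv
        simp [he, hv.symm]
      · simp
    rw [this, map_sum]
    exact Finset.sum_eq_zero fun v _ => rank_one ψ hm hni _ _
  · rw [← hθm, ← hθm, hm, hm, hg, mul_zero, zero_mul]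
  · have : θ g = θ b + θ c - θ a := by
      ext x
      simp only [ContinuousLinearMap.sub_apply, ContinuousLinearMap.add_apply, hθ1,
        ← map_add, ← map_sub]
      congr 1
      ext z
      rcases h z with ⟨e1, e2⟩ | ⟨e1, e2⟩ <;> simp [e1, e2]
    rw [this, map_sub, map_add, ha, hb, hc]; simp
  · refine step ψ hm hs (fun S => θ (ρ S)) (‖α‖ * (2 * ‖β‖)) (by positivity)
      (fun S T => by rw [hθm, h1, inter_comm]) (fun S => ?_) h3 ?_
    · refine ContinuousLinearMap.opNorm_le_bound _ (by positivity) fun x => ?_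
      rw [hθ1, mul_assoc]
      refine (α.le_opNorm _).trans ?_
      gcongr
      refine (BoundedContinuousFunction.norm_compContinuous_le _ _).trans ((β.le_opNorm _).trans ?_)
      have : 0 ≤ ‖β‖ * ‖x‖ := by positivity
      nlinarith
    · intro F S m hS x δ hδ hx
      simp only [ContinuousLinearMap.sub_apply, hθ1, ← map_sub, ← map_sum]
      rw [mul_assoc]
      refine (α.le_opNorm _).trans ?_
      gcongr
      rw [BoundedContinuousFunction.norm_le (by positivity)]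
      intro z
      rw [BoundedContinuousFunction.sum_apply]
      by_cases hz : ∃ i ∈ F, ρ (S i) z ≠ ρ (S i ∩ Iio m) z
      · obtain ⟨i, hi, hiz⟩ := hz
        rw [Finset.sum_eq_single i]
        · have h4 : ‖β (x i)‖ ≤ ‖β‖ * δ := (β.le_opNorm _).trans (by gcongr; exact hx i hi)
          have h5 := (β (x i)).norm_coe_le_norm (ρ (S i) z)
          have h6 := (β (x i)).norm_coe_le_norm (ρ (S i ∩ Iio m) z)
          refine (norm_sub_le _ _).trans ?_
          simp only [BoundedContinuousFunction.compContinuous_apply]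
          linarith
        · intro j hj hji
          rcases h2 (S i) (S j) m z (hS i hi j hj hji.symm) with h | h
          · exact absurd h hiz
          · simp [h]
        · intro h; exact absurd hi h
      · push Not at hz
        rw [Finset.sum_eq_zero fun i hi => by simp [hz i hi], norm_zero]
        positivity

end Pool.Agent.H79Z.Shai
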