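import Pool.Agent.H79Z.ShaiB

set_option autoImplicit false

namespace Pool.Agent.H79Z.Shai

open Filter Topology Set Function

theorem exists_enum {S : Set ℕ} (hS : S.Infinite) : ∃ σ τ : ℕ → ℕ, (∀ i, σ i ∈ S) ∧
    (∀ i, i ≤ σ i) ∧ (∀ i, τ (σ i) = i) ∧ (∀ n ∈ S, σ (τ n) = n) ∧ Tendsto τ atTop atTop := by
  classical
  have hS' : (Set.ofPred fun n => n ∈ S).Infinite := hS
  refine ⟨Nat.nth (· ∈ S), Nat.count (· ∈ S), Nat.nth_mem_of_infinite hS',
    fun i => (Nat.nth_strictMono hS').id_le i, Nat.count_nth_of_infinite hS',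
    fun n hn => Nat.nth_count hn, ?_⟩
  exact tendsto_atTop_atTop_of_monotone (Nat.count_monotone _)
    fun i => ⟨_, (Nat.count_nth_of_infinite hS' i).ge⟩

/-- Piecewise maps on a sequence of clopen sets converging to a point. -/
theorem exists_pw {E : Type*} [TopologicalSpace E] [T2Space E] (W : ℕ → Set E)
    (hW : ∀ i, IsClopen (W i)) (hd : ∀ i j x, x ∈ W i → x ∈ W j → i = j) (t : E)
    (ht : ∀ i, t ∉ W i) (φ : ℕ → E → E) (hφ : ∀ i, Continuous (φ i))
    (hN : ∀ N ∈ 𝓝 t, ∀ᶠ i in atTop, ∀ x ∈ W i, x ∈ N ∧ φ i x ∈ N) :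
    ∃ Φ : E → E, Continuous Φ ∧ (∀ i, ∀ x ∈ W i, Φ x = φ i x) ∧
      ∀ x, (∀ i, x ∉ W i) → Φ x = t := by
  classical
  let Φ : E → E := fun x => if h : ∃ i, x ∈ W i then φ h.choose x else t
  have h1 : ∀ i, ∀ x ∈ W i, Φ x = φ i x := by
    intro i x hx
    have h : ∃ i, x ∈ W i := ⟨i, hx⟩
    simp only [Φ, dif_pos h]
    rw [hd _ _ x h.choose_spec hx]
  have h2 : ∀ x, (∀ i, x ∉ W i) → Φ x = t := by
    intro x hx
    have h : ¬ ∃ i, x ∈ W i := not_exists.2 hx
    simp only [Φ, dif_neg h]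
  have h3 : ∀ x, (∀ i, x ∉ W i) → ∀ n : ℕ, ∀ᶠ y in 𝓝 x, ∀ i ∈ Iio n, y ∉ W i := by
    intro x hx n
    rw [(finite_Iio n).eventually_all]
    exact fun i _ => (hW i).1.isOpen_compl.mem_nhds (hx i)
  refine ⟨Φ, continuous_iff_continuousAt.2 fun x => ?_, h1, h2⟩
  by_cases hx : ∃ i, x ∈ W i
  · obtain ⟨i, hi⟩ := hx
    refine (hφ i).continuousAt.congr ?_
    filter_upwards [(hW i).2.mem_nhds hi] with y hy using (h1 i y hy).symm
  · push Not at hx
    by_cases hxt : x = t
    · subst hxt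
      rw [ContinuousAt, h2 x hx]
      intro N hN'
      obtain ⟨n, hn⟩ := eventually_atTop.1 (hN N hN')
      change ∀ᶠ y in 𝓝 x, Φ y ∈ N
      filter_upwards [h3 x hx n] with y hy
      by_cases hy' : ∃ i, y ∈ W i
      · obtain ⟨i, hi⟩ := hy'
        rw [h1 i y hi]
        exact (hn i (not_lt.1 fun h => hy i h hi) y hi).2
      · rw [h2 y (not_exists.1 hy')]
        exact mem_of_mem_nhds hN'
    · obtain ⟨V, N, hV, hN', hVN⟩ := t2_separation_nhds hxt
      obtain ⟨n, hn⟩ := eventually_atTop.1 (hN N hN')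
      refine (continuousAt_const (y := t)).congr ?_
      filter_upwards [h3 x hx n, hV] with y hy hyV
      refine (h2 y fun i hi => ?_).symm
      exact disjoint_left.1 hVN hyV (hn i (not_lt.1 fun h => hy i h hi) y hi).1

universe u

theorem continuous_ord_sub (a : Ordinal.{u}) : Continuous fun x : Ordinal.{u} => x - a := by
  rw [OrderTopology.continuous_iff]
  intro b
  constructor
  · have : (fun x : Ordinal.{u} => x - a) ⁻¹' Ioi b = Ioi (a + b) := by
      ext x; simp [Ordinal.lt_sub]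
    rw [this]; exact isOpen_Ioi
  · refine ((isLowerSet_Iio b).preimage fun x y h => ?_).isOpen
    exact Ordinal.sub_le.2 (h.trans (Ordinal.le_add_sub y a))

theorem continuous_ord_add (a : Ordinal.{u}) : Continuous fun x : Ordinal.{u} => a + x :=
  (Ordinal.isNormal_add_right a).continuous

theorem isClopen_ord_Iic (a : Ordinal.{u}) : IsClopen (Iic a) :=
  ⟨isClosed_Iic, (isLowerSet_Iic a).isOpen⟩

theorem isClopen_ord_Ioc (a b : Ordinal.{u}) : IsClopen (Ioc a b) := by
  have : Ioc a b = Iic b \ Iic a := by ext x; simp [and_comm]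
  rw [this]
  exact (isClopen_ord_Iic b).diff (isClopen_ord_Iic a)

theorem continuous_ord_ite (a c d : Ordinal.{u}) :
    Continuous fun x : Ordinal.{u} => if x ≤ a then c else d := by
  refine Continuous.if (fun x hx => ?_) continuous_const continuous_const
  have : frontier {x : Ordinal.{u} | x ≤ a} = ∅ := (isClopen_ord_Iic a).frontier_eq
  rw [this] at hx
  exact hx.elim

/-- Continuous maps of the ordinals into `[0, Ω]`. -/
def Good (Ω : Ordinal.{u}) (Φ : Ordinal.{u} → Ordinal.{u}) : Prop :=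
  Continuous Φ ∧ ∀ x, Φ x ≤ Ω

/-- Restriction to `[0, Ω]`. -/
def Good.res {Ω : Ordinal.{u}} {Φ : Ordinal.{u} → Ordinal.{u}} (h : Good Ω Φ) :
    C(Iic Ω, Iic Ω) :=
  ⟨fun x => ⟨Φ x, h.2 x⟩, (h.1.comp continuous_subtype_val).subtype_mk _⟩

section
variable {Ω : Ordinal.{u}} {Z : C(Iic Ω, Iic Ω) → Prop} (hZ : Rules Z)
include hZ

theorem ord_fin {Φ : Ordinal.{u} → Ordinal.{u}} (h : Good Ω Φ) (hf : (range Φ).Finite) :
    Z h.res := by
  refine hZ.fin _ ((hf.preimage Subtype.val_injective.injOn).subset ?_)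
  rintro _ ⟨x, rfl⟩
  exact ⟨x, rfl⟩

theorem ord_comp {Φ Ψ A B : Ordinal.{u} → Ordinal.{u}} (hΦ : Good Ω Φ) (hΨ : Good Ω Ψ)
    (hA : Good Ω A) (hB : Good Ω B) (h : Z hΦ.res) (he : ∀ x, Ψ x = A (Φ (B x))) : Z hΨ.res := by
  have : hΨ.res = hA.res.comp (hΦ.res.comp hB.res) := by
    ext x; exact he x
  rw [this]
  exact hZ.comp _ _ _ h

theorem ord_glue {Φ A B C : Ordinal.{u} → Ordinal.{u}} (hΦ : Good Ω Φ)
    (hA : Good Ω A) (hB : Good Ω B) (hC : Good Ω C) (h1 : Z hA.res) (h2 : Z hB.res)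
    (h3 : Z hC.res) (he : ∀ x, (Φ x = B x ∧ A x = C x) ∨ (Φ x = C x ∧ A x = B x)) :
    Z hΦ.res := by
  refine hZ.glue _ _ _ _ h1 h2 h3 fun x => ?_
  rcases he x with ⟨e1, e2⟩ | ⟨e1, e2⟩
  · exact Or.inl ⟨Subtype.ext e1, Subtype.ext e2⟩
  · exact Or.inr ⟨Subtype.ext e1, Subtype.ext e2⟩

omit hZ in
theorem good_min {b : Ordinal.{u}} (hb : b ≤ Ω) : Good Ω fun x => min x b :=
  ⟨continuous_id.min continuous_const, fun _ => (min_le_right _ _).trans hb⟩

omit hZ in
theorem good_const {b : Ordinal.{u}} (hb : b ≤ Ω) : Good Ω fun _ => b :=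
  ⟨continuous_const, fun _ => hb⟩

theorem ord_const {b : Ordinal.{u}} (hb : b ≤ Ω) : Z (good_const hb).res :=
  ord_fin hZ _ (finite_range_const)

theorem ord_add {c d : Ordinal.{u}} (hb : c + d ≤ Ω) (hc : c ≤ Ω) (hd : d ≤ Ω)
    (h1 : Z (good_min hc).res) (h2 : Z (good_min hd).res) : Z (good_min hb).res := by
  have hB : Good Ω fun x => c + min (x - c) d :=
    ⟨(continuous_ord_add c).comp ((continuous_ord_sub c).min continuous_const),
      fun x => (add_le_add_right (min_le_right _ _) c).trans hb⟩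
  have h3 : Z hB.res := by
    refine ord_comp hZ (A := fun x => min (c + x) Ω) (B := fun x => min (x - c) Ω)
      (good_min hd) hB ⟨(continuous_ord_add c).min continuous_const, fun _ => min_le_right _ _⟩
      ⟨(continuous_ord_sub c).min continuous_const, fun _ => min_le_right _ _⟩ h2 fun x => ?_
    rw [min_assoc, min_eq_right hd, min_eq_left (hB.2 x)]
  refine ord_glue hZ _ (good_const hc) (good_min hc) hB (ord_const hZ hc) h1 h3 fun x => ?_
  rcases le_total x c with h | h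
  · left
    rw [min_eq_left h, min_eq_left (h.trans le_self_add), Ordinal.sub_eq_zero_iff_le.2 h]
    simp
  · right
    refine ⟨?_, (min_eq_right h).symm⟩
    rcases le_total x (c + d) with h' | h'
    · rw [min_eq_left h', min_eq_left (Ordinal.sub_le.2 h'), Ordinal.add_sub_cancel_of_le h]
    · rw [min_eq_right h', min_eq_right (Ordinal.le_sub_of_add_le h')]

theorem ord_principal {b : Ordinal.{u}} (hb : b ≤ Ω) (hb0 : 0 < b) (hcount : (Iio b).Countable)
    (hp : Ordinal.IsPrincipal (· + ·) b)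
    (ih : ∀ c (hc : c < b), Z (good_min (hc.le.trans hb)).res) : Z (good_min hb).res := by
  classical
  obtain ⟨e, he⟩ := hcount.exists_eq_range ⟨0, hb0⟩
  have he1 : ∀ i, e i < b := fun i => by
    have : e i ∈ Iio b := he ▸ mem_range_self i
    exact this
  let d : ℕ → Ordinal.{u} := fun i => partialSups e i
  have hd1 : ∀ i, d i < b := by
    intro i
    induction i with
    | zero => simpa [d] using he1 0
    | succ i ih => simpa [d, partialSups_add_one] using ⟨ih, he1 _⟩
  have hd2 : Monotone d := (partialSups e).monotone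
  obtain ⟨p, hp0, hps⟩ : ∃ p : ℕ → Ordinal.{u}, p 0 = 0 ∧ ∀ i, p (i + 1) = p i + d i :=
    ⟨fun i => Nat.rec 0 (fun i a => a + d i) i, rfl, fun i => rfl⟩
  have hp1 : ∀ i, p i < b := by
    intro i
    induction i with
    | zero => rw [hp0]; exact hb0
    | succ i ih => rw [hps]; exact hp ih (hd1 i)
  have hp2 : Monotone p := monotone_nat_of_le_succ fun i => by rw [hps]; exact le_self_add
  have hp3 : ∀ c < b, ∃ i, c ≤ p (i + 1) := by
    intro c hc
    obtain ⟨i, rfl⟩ : c ∈ range e := he ▸ hc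
    exact ⟨i, by rw [hps]; exact (le_partialSups e i).trans le_add_self⟩
  let W : ℕ → Set Ordinal.{u} := fun i => Ioc (p i) (p (i + 1))
  have hWd : ∀ i j x, x ∈ W i → x ∈ W j → i = j := by
    intro i j x hi hj
    by_contra h
    rcases lt_or_gt_of_ne h with h | h
    · exact (hi.2.trans (hp2 (Nat.succ_le_of_lt h))).not_gt hj.1
    · exact (hj.2.trans (hp2 (Nat.succ_le_of_lt h))).not_gt hi.1
  have hWb : ∀ i, b ∉ W i := fun i h => (hp1 (i + 1)).not_ge h.2
  have hWx : ∀ x, 0 < x → x < b → ∃ i, x ∈ W i := by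
    intro x h0 hx
    have h := hp3 x hx
    refine ⟨Nat.find h, ?_, Nat.find_spec h⟩
    rcases hn : Nat.find h with _ | n
    · rw [hp0]; exact h0
    · exact not_le.1 (Nat.find_min h (by omega))
  have hpw : ∀ φ : ℕ → Ordinal.{u} → Ordinal.{u}, (∀ i, Continuous (φ i)) →
      (∀ i, ∀ x ∈ W i, φ i x ≤ b) → (∀ n, ∀ᶠ i in atTop, ∀ x ∈ W i, p n < φ i x) →
      ∃ Φ, Good Ω Φ ∧ (∀ i, ∀ x ∈ W i, Φ x = φ i x) ∧ ∀ x, (∀ i, x ∉ W i) → Φ x = b := by
    intro φ h1 h2 h3
    obtain ⟨Φ, k1, k2, k3⟩ := exists_pw W (fun i => isClopen_ord_Ioc _ _) hWd b hWb φ h1 (by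
      intro N hN
      obtain ⟨l, hl, hlN⟩ := exists_Ioc_subset_of_mem_nhds hN ⟨0, hb0⟩
      obtain ⟨n, hn⟩ := hp3 l hl
      filter_upwards [h3 (n + 1), eventually_ge_atTop (n + 1)] with i hi hi' x hx
      exact ⟨hlN ⟨(hn.trans (hp2 hi')).trans_lt hx.1, hx.2.trans (hp1 _).le⟩,
        hlN ⟨hn.trans_lt (hi x hx), h2 i x hx⟩⟩)
    refine ⟨Φ, ⟨k1, fun x => ?_⟩, k2, k3⟩
    rcases em (∃ i, x ∈ W i) with ⟨i, hi⟩ | hx
    · rw [k2 i x hi]; exact (h2 i x hi).trans hb
    · rw [k3 x (not_exists.1 hx)]; exact hb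
  have hρ : ∀ S : Set ℕ, ∃ Φ, Good Ω Φ ∧ (∀ i, ∀ x ∈ W i, Φ x = if i ∈ S then x else b) ∧
      ∀ x, (∀ i, x ∉ W i) → Φ x = b := by
    intro S
    refine hpw (fun i x => if i ∈ S then x else b) (fun i => ?_) (fun i x hx => ?_) fun n => ?_
    · split_ifs
      · exact continuous_id
      · exact continuous_const
    · split_ifs
      · exact hx.2.trans (hp1 _).le
      · exact le_rfl
    · filter_upwards [eventually_ge_atTop n] with i hi x hx
      split_ifs
      · exact (hp2 hi).trans_lt hx.1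
      · exact hp1 _
  choose ρ hρ1 hρ2 hρ3 using hρ
  have hT : ∀ τ : ℕ → ℕ, Tendsto τ atTop atTop → ∃ Φ, Good Ω Φ ∧
      (∀ i, ∀ x ∈ W i, Φ x = p (τ i) + (x - p i)) ∧ ∀ x, (∀ i, x ∉ W i) → Φ x = b := by
    intro τ hτ
    refine hpw (fun i x => p (τ i) + (x - p i))
      (fun i => (continuous_ord_add _).comp (continuous_ord_sub _)) (fun i x hx => ?_) fun n => ?_
    · exact (hp (hp1 _) ((Ordinal.sub_le_self _ _).trans_lt (hx.2.trans_lt (hp1 _)))).le
    · filter_upwards [hτ.eventually (eventually_ge_atTop n)] with i hi x hx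
      refine (hp2 hi).trans_lt ?_
      simpa [pos_iff_ne_zero, Ordinal.sub_eq_zero_iff_le] using hx.1
  have hρb : ∀ S, ρ S b = b := fun S => hρ3 S b hWb
  obtain ⟨S, hS, hZS⟩ := hZ.step (fun S => (hρ1 S).res) (by
      intro S T
      ext x
      change ρ S (ρ T x) = ρ (S ∩ T) x
      rcases em (∃ i, (x : Ordinal.{u}) ∈ W i) with ⟨i, hi⟩ | hx
      · rw [hρ2 _ i x hi, hρ2 _ i x hi]
        by_cases h : i ∈ T
        · rw [if_pos h, hρ2 _ i x hi]; simp [h]
        · rw [if_neg h, hρb]; simp [h]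
      · rw [hρ3 _ x (not_exists.1 hx), hρ3 _ x (not_exists.1 hx), hρb])
    (by
      intro S T m x hST
      simp only [Subtype.ext_iff]
      change ρ S x = ρ (S ∩ Iio m) x ∨ ρ T x = ρ (T ∩ Iio m) x
      rcases em (∃ i, (x : Ordinal.{u}) ∈ W i) with ⟨i, hi⟩ | hx
      · simp only [hρ2 _ i x hi]
        by_cases h1 : i < m
        · left; simp [h1]
        · by_cases h2 : i ∈ S
          · right
            have : i ∉ T := fun h => h1 (hST ⟨h2, h⟩)
            simp [this]
          · left; simp [h2]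
      · left
        rw [hρ3 _ x (not_exists.1 hx), hρ3 _ x (not_exists.1 hx)])
    (by
      intro S hS
      obtain ⟨m, hm⟩ := hS.bddAbove
      have hc : p (m + 1) ≤ Ω := (hp1 _).le.trans hb
      have hB : Good Ω fun x => min (ρ S x) (p (m + 1)) :=
        ⟨(hρ1 S).1.min continuous_const, fun _ => (min_le_right _ _).trans hc⟩
      have hC : Good Ω fun x => if ρ S x ≤ p (m + 1) then p (m + 1) else b :=
        ⟨(continuous_ord_ite _ _ _).comp (hρ1 S).1, fun x => by dsimp only; split_ifs <;> assumption⟩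
      refine ord_glue hZ _ (good_const hc) hB hC (ord_const hZ hc) ?_ ?_ fun x => ?_
      · refine ord_comp hZ _ hB (good_min le_rfl) (hρ1 S) (ih _ (hp1 (m + 1))) fun x => ?_
        exact (min_eq_left (hB.2 x)).symm
      · refine ord_fin hZ _ ((toFinite {p (m + 1), b}).subset ?_)
        rintro _ ⟨x, rfl⟩
        dsimp only
        split_ifs <;> simp
      · by_cases h : ρ S x ≤ p (m + 1)
        · left; simp [h]
        · right
          have h' := (not_le.1 h).le
          refine ⟨?_, (min_eq_right h').symm⟩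
          rw [if_neg h]
          rcases em (∃ i, x ∈ W i) with ⟨i, hi⟩ | hx
          · rw [hρ2 _ i x hi] at h ⊢
            split_ifs at h ⊢ with h2
            · exact absurd (hi.2.trans (hp2 (Nat.succ_le_succ (hm h2)))) h
            · rfl
          · exact hρ3 _ x (not_exists.1 hx))
  obtain ⟨σ, τ, hσ1, hσ2, hσ3, -, hτ⟩ := exists_enum hS
  obtain ⟨V, hV1, hV2, hV3⟩ := hT σ (tendsto_atTop_mono hσ2 tendsto_id)
  obtain ⟨U, hU1, hU2, hU3⟩ := hT τ hτ
  have huniv : Z (hρ1 univ).res := by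
    refine ord_comp hZ _ _ hU1 hV1 hZS fun x => ?_
    rcases em (∃ i, x ∈ W i) with ⟨i, hi⟩ | hx
    · have h1 : p (σ i) + (x - p i) ∈ W (σ i) := by
        constructor
        · simpa [pos_iff_ne_zero, Ordinal.sub_eq_zero_iff_le] using hi.1
        · rw [hps]
          exact add_le_add_right ((Ordinal.sub_le.2 (hps i ▸ hi.2)).trans (hd2 (hσ2 i))) _
      rw [hρ2 _ i x hi, hV2 i x hi, hρ2 _ _ _ h1, if_pos (hσ1 i), hU2 _ _ h1, hσ3,
        Ordinal.add_sub_cancel, Ordinal.add_sub_cancel_of_le hi.1.le, if_pos (mem_univ _)]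
    · rw [hρ3 _ x (not_exists.1 hx), hV3 x (not_exists.1 hx), hρb, hU3 b hWb]
  have hC : Good Ω fun x => if x ≤ 0 then 0 else b :=
    ⟨continuous_ord_ite _ _ _, fun x => by dsimp only; split_ifs <;> simp [hb]⟩
  refine ord_glue hZ _ (good_const hb) (hρ1 univ) hC (ord_const hZ hb) huniv ?_ fun x => ?_
  · refine ord_fin hZ _ ((toFinite {0, b}).subset ?_)
    rintro _ ⟨x, rfl⟩
    dsimp only
    split_ifs <;> simp
  · by_cases h0 : x ≤ 0
    · right
      obtain rfl : x = 0 := le_antisymm h0 (zero_le)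
      refine ⟨by simp, (hρ3 _ _ fun i hi => ?_).symm⟩
      exact absurd hi.1 (by simp)
    · left
      refine ⟨?_, by simp only [if_neg h0]⟩
      rcases lt_or_ge x b with h | h
      · obtain ⟨i, hi⟩ := hWx x (not_le.1 h0) h
        rw [hρ2 _ i x hi, min_eq_left h.le, if_pos (mem_univ _)]
      · rw [min_eq_right h, hρ3 _ _ fun i hi => (hp1 _).not_ge (h.trans hi.2)]

theorem ord_id (hcount : (Iic Ω).Countable) : Z (ContinuousMap.id _) := by
  have key : ∀ b (hb : b ≤ Ω), Z (good_min hb).res := by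
    intro b
    induction b using WellFoundedLT.induction with
    | ind b ih =>
      intro hb
      by_cases h1 : b ≤ 1
      · refine ord_fin hZ _ ((toFinite {0, 1}).subset ?_)
        rintro _ ⟨x, rfl⟩
        have : min x b ≤ 1 := (min_le_right _ _).trans h1
        simpa [Order.le_one_iff] using Order.le_one_iff.1 this
      · by_cases hp : Ordinal.IsPrincipal (· + ·) b
        · exact ord_principal hZ hb (zero_lt_one.trans (not_le.1 h1))
            (hcount.mono fun x hx => (le_of_lt hx).trans hb) hp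
            fun c hc => ih c hc (hc.le.trans hb)
        · obtain ⟨c, hc, d, hd, h⟩ := Ordinal.not_isPrincipal_iff.1 hp
          have h2 : b - c < b := (Ordinal.sub_le.2 h).trans_lt hd
          have h3 : c + (b - c) = b := Ordinal.add_sub_cancel_of_le hc.le
          have := ord_add hZ (h3.le.trans hb) (hc.le.trans hb) (h2.le.trans hb) 
            (ih _ hc (hc.le.trans hb)) (ih _ h2 (h2.le.trans hb))
          simpa only [h3] using this
  have : (good_min (le_refl Ω)).res = ContinuousMap.id _ := by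
    ext x
    exact min_eq_left x.2
  exact this ▸ key Ω le_rfl

end

open scoped BoundedContinuousFunction

theorem separable_bcf (𝕜 : Type*) [RCLike 𝕜] (K : Type*) [TopologicalSpace K] [CompactSpace K]
    [T2Space K] [SecondCountableTopology K] : TopologicalSpace.SeparableSpace (K →ᵇ 𝕜) :=
  (ContinuousMap.isometryEquivBoundedOfCompact K 𝕜).surjective.denseRange.separableSpace
    (ContinuousMap.isometryEquivBoundedOfCompact K 𝕜).continuous

/-- SHAI for the bounded continuous functions on a countable ordinal interval. -/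
theorem shai_ord {𝕜 : Type*} [RCLike 𝕜] {Ω : Ordinal.{u}} (hcount : (Iic Ω).Countable)
    {Y : Type*} [NormedAddCommGroup Y] [NormedSpace 𝕜 Y] [CompleteSpace Y] [Nontrivial Y]
    (ψ : ((Iic Ω →ᵇ 𝕜) →L[𝕜] (Iic Ω →ᵇ 𝕜)) →ₗ[𝕜] (Y →L[𝕜] Y))
    (hm : ∀ S T, ψ (S * T) = ψ S * ψ T) (hs : Surjective ψ) : Injective ψ := by
  by_contra hni
  have : Countable (Iic Ω) := hcount.to_subtype
  have : CompactSpace (Iic Ω) := isCompact_iff_compactSpace.1 (by
    rw [← Icc_bot]; exact isCompact_Icc)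
  have : SecondCountableTopology (Iic Ω) := by
    refine ⟨⟨{s | ∃ a : Iic Ω, s = Ioi a ∨ s = Iio a}, ?_,
      OrderTopology.topology_eq_generate_intervals⟩⟩
    refine ((countable_range (fun a : Iic Ω => Ioi a)).union
      (countable_range (fun a : Iic Ω => Iio a))).mono ?_
    rintro _ ⟨a, rfl | rfl⟩
    · exact Or.inl ⟨a, rfl⟩
    · exact Or.inr ⟨a, rfl⟩
  have := separable_bcf 𝕜 (Iic Ω)
  have h := ord_id (rules ψ hm hs hni (ContinuousLinearMap.id 𝕜 _) (ContinuousLinearMap.id 𝕜 _)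
    fun _ => rfl) hcount
  have h1 : ψ 1 = 0 := h
  rw [map_one_of_surj ψ hm hs] at h1
  exact one_ne_zero h1

theorem countable_Iic_of_card {Ω : Ordinal.{u}} (h : Ω.card ≤ Cardinal.aleph0) :
    (Iic Ω).Countable := by
  rw [← Iio_insert]
  refine Countable.insert _ ?_
  rw [← Cardinal.le_aleph0_iff_set_countable, Cardinal.mk_Iio_ordinal]
  exact Cardinal.lift_le_aleph0.2 h

end Pool.Agent.H79Z.Shai
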