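import Pool.Agent.H79Z.ShaiC

set_option autoImplicit false

namespace Pool.Agent.H79Z.Shai

open Filter Topology Set Function
open scoped BoundedContinuousFunction

theorem continuous_of_local {Φ : (ℕ → Bool) → (ℕ → Bool)}
    (h : ∀ n, ∃ m : ℕ, ∀ x y, (∀ k < m, x k = y k) → Φ x n = Φ y n) : Continuous Φ := by
  refine continuous_pi fun n => continuous_iff_continuousAt.2 fun x => ?_
  obtain ⟨m, hm⟩ := h n
  refine (continuousAt_const (y := Φ x n)).congr ?_
  have : ∀ᶠ y : ℕ → Bool in 𝓝 x, ∀ k ∈ Iio m, y k = x k := by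
    rw [(finite_Iio m).eventually_all]
    intro k _
    exact ((continuous_apply k).tendsto x).eventually (isOpen_discrete {x k} |>.mem_nhds rfl)
  filter_upwards [this] with y hy using hm x y fun k hk => (hy k hk).symm

theorem cantor_id {Z : C(ℕ → Bool, ℕ → Bool) → Prop} (hZ : Rules Z) :
    Z (ContinuousMap.id _) := by
  classical
  let ρ : Set ℕ → C(ℕ → Bool, ℕ → Bool) := fun S =>
    ⟨fun x n => decide (x n = true ∧ ∀ k ≤ n, x k = true → k ∈ S), continuous_of_local fun n =>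
      ⟨n + 1, fun x y h => by
        rw [decide_eq_decide, h n (by omega)]
        refine and_congr Iff.rfl (forall₂_congr fun k hk => ?_)
        rw [h k (by omega)]⟩⟩
  have hρ : ∀ S x n, ρ S x n = true ↔ x n = true ∧ ∀ k ≤ n, x k = true → k ∈ S :=
    fun S x n => decide_eq_true_iff
  obtain ⟨S, hS, hZS⟩ := hZ.step ρ (by
      intro S T
      ext x n
      rw [Bool.eq_iff_iff, ContinuousMap.comp_apply]
      simp only [hρ]
      constructor
      · rintro ⟨⟨h1, h2⟩, h3⟩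
        exact ⟨h1, fun k hk hx => ⟨h3 k hk ⟨hx, fun j hj => h2 j (hj.trans hk)⟩, h2 k hk hx⟩⟩
      · rintro ⟨h1, h2⟩
        exact ⟨⟨h1, fun k hk hx => (h2 k hk hx).2⟩, fun k hk hx => (h2 k hk hx.1).1⟩)
    (by
      intro S T m x hST
      have key : ∀ S : Set ℕ, ρ S x ≠ ρ (S ∩ Iio m) x → ∃ n, (∀ k ≤ n, x k = true → k ∈ S) ∧
          ∃ k ≤ n, x k = true ∧ m ≤ k := by
        intro S h
        obtain ⟨n, hn⟩ := Function.ne_iff.1 h
        by_contra hc
        push Not at hc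
        apply hn
        rw [Bool.eq_iff_iff]
        simp only [hρ]
        constructor
        · rintro ⟨h1, h2⟩
          exact ⟨h1, fun k hk hx => ⟨h2 k hk hx, hc n h2 k hk hx⟩⟩
        · rintro ⟨h1, h2⟩
          exact ⟨h1, fun k hk hx => (h2 k hk hx).1⟩
      by_contra hc
      push Not at hc
      obtain ⟨n, h1, k, hk, h2, h3⟩ := key S hc.1
      obtain ⟨n', h1', k', hk', h2', h3'⟩ := key T hc.2
      rcases le_total n n' with h | h
      · exact (not_lt.2 h3) (hST ⟨h1 k hk h2, h1' k (hk.trans h) h2⟩)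
      · exact (not_lt.2 h3') (hST ⟨h1 k' (hk'.trans h) h2', h1' k' hk' h2'⟩))
    (by
      intro S hS
      refine hZ.fin _ ((hS.finite_subsets.image fun A : Set ℕ => fun n => decide (n ∈ A)).subset ?_)
      rintro _ ⟨x, rfl⟩
      refine ⟨{n | ρ S x n = true}, fun n hn => ?_, ?_⟩
      · exact ((hρ S x n).1 hn).2 n le_rfl ((hρ S x n).1 hn).1
      · ext n; simp)
  obtain ⟨σ, τ, hσ1, -, hσ3, -, -⟩ := exists_enum hS
  let V : C(ℕ → Bool, ℕ → Bool) := ⟨fun x n => if n ∈ S then x (τ n) else false,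
    continuous_pi fun n => by split_ifs <;> fun_prop⟩
  let U : C(ℕ → Bool, ℕ → Bool) := ⟨fun y i => y (σ i), by fun_prop⟩
  have : U.comp ((ρ S).comp V) = ContinuousMap.id _ := by
    ext x i
    change ρ S (V x) (σ i) = x i
    have hV : ∀ n, V x n = if n ∈ S then x (τ n) else false := fun n => rfl
    rw [Bool.eq_iff_iff, hρ, hV, if_pos (hσ1 i), hσ3]
    refine ⟨fun h => h.1, fun h => ⟨h, fun k _ hk => ?_⟩⟩
    by_contra h'
    simp [hV, h'] at hk
  exact this ▸ hZ.comp _ U V hZS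

variable {𝕜 : Type*} [RCLike 𝕜]

theorem shai_of_cantor {X : Type*} [NormedAddCommGroup X] [NormedSpace 𝕜 X] [CompleteSpace X]
    [TopologicalSpace.SeparableSpace X]
    (α : ((ℕ → Bool) →ᵇ 𝕜) →L[𝕜] X) (β : X →L[𝕜] ((ℕ → Bool) →ᵇ 𝕜)) (hβα : ∀ f, β (α f) = f)
    (γ : X →L[𝕜] ((ℕ → Bool) →ᵇ 𝕜)) (δ : ((ℕ → Bool) →ᵇ 𝕜) →L[𝕜] X) (hδγ : ∀ x, δ (γ x) = x)
    {Y : Type*} [NormedAddCommGroup Y] [NormedSpace 𝕜 Y] [CompleteSpace Y] [Nontrivial Y]
    (ψ : (X →L[𝕜] X) →ₗ[𝕜] (Y →L[𝕜] Y))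
    (hm : ∀ S T, ψ (S * T) = ψ S * ψ T) (hs : Surjective ψ) : Injective ψ := by
  by_contra hni
  have h : ψ (α ∘L β) = 0 := cantor_id (rules ψ hm hs hni α β hβα)
  have h1 : (1 : X →L[𝕜] X) = (δ ∘L β) * (α ∘L β) * (α ∘L γ) := by
    ext x; simp [hβα, hδγ]
  have h2 := map_one_of_surj ψ hm hs
  rw [h1, hm, hm, h, mul_zero, zero_mul] at h2
  exact zero_ne_one h2

/-- Prepending a digit. -/
def cons (b : Bool) : C(ℕ → Bool, ℕ → Bool) :=
  ⟨fun x n => Nat.casesOn n b x, continuous_pi fun n => by cases n <;> fun_prop⟩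

/-- Oscillation at level `N`. -/
def Osc (N : ℕ) (g : (ℕ → Bool) →ᵇ 𝕜) (ε : ℝ) : Prop :=
  ∀ x y : ℕ → Bool, (∀ k < N, x k = y k) → ‖g x - g y‖ ≤ ε

theorem Osc.cons {N : ℕ} {g : (ℕ → Bool) →ᵇ 𝕜} {ε : ℝ} (h : Osc (N + 1) g ε) (b : Bool) :
    Osc N (g.compContinuous (cons b)) ε := by
  intro x y hxy
  refine h _ _ fun k hk => ?_
  cases k with
  | zero => rfl
  | succ k => exact hxy k (by omega)

theorem exists_osc (g : (ℕ → Bool) →ᵇ 𝕜) {ε : ℝ} (hε : 0 < ε) : ∃ N, Osc N g ε := by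
  by_contra hc
  simp only [Osc] at hc
  push Not at hc
  let C : ℕ → Set ((ℕ → Bool) × (ℕ → Bool)) := fun N =>
    {p | ∀ k < N, p.1 k = p.2 k} ∩ {p | ε ≤ ‖g p.1 - g p.2‖}
  have hcl : ∀ N, IsClosed (C N) := by
    intro N
    refine IsClosed.inter ?_ (isClosed_le continuous_const (by fun_prop))
    simp only [ofPred_forall]
    exact isClosed_iInter fun k => isClosed_iInter fun _ => isClosed_eq (by fun_prop) (by fun_prop)
  obtain ⟨p, hp⟩ := IsCompact.nonempty_iInter_of_sequence_nonempty_isCompact_isClosed C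
    (fun N p hp => ⟨fun k hk => hp.1 k (by omega), hp.2⟩)
    (fun N => by
      obtain ⟨x, y, h1, h2⟩ := hc N
      exact ⟨(x, y), h1, h2.le⟩) (hcl 0).isCompact hcl
  rw [mem_iInter] at hp
  have h1 : p.1 = p.2 := funext fun k => (hp (k + 1)).1 k (by omega)
  have h2 : ε ≤ ‖g p.1 - g p.2‖ := (hp 0).2
  rw [h1, sub_self, norm_zero] at h2
  linarith

theorem norm_conv {r ε : ℝ} (h0 : 0 ≤ r) (h1 : r ≤ 1) {a b : 𝕜} (ha : r ≠ 1 → ‖a‖ ≤ ε)
    (hb : r ≠ 0 → ‖b‖ ≤ ε) : ‖(1 - (r : 𝕜)) * a + r * b‖ ≤ ε := by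
  by_cases e1 : r = 1
  · subst e1; simpa using hb one_ne_zero
  by_cases e0 : r = 0
  · subst e0; simpa using ha zero_ne_one
  refine (norm_add_le _ _).trans ?_
  have h2 : (1 - (r : 𝕜)) = ((1 - r : ℝ) : 𝕜) := by push_cast; ring
  rw [norm_mul, norm_mul, h2, RCLike.norm_ofReal, RCLike.norm_ofReal, abs_of_nonneg h0,
    abs_of_nonneg (sub_nonneg.2 h1)]
  have := ha e1
  have := hb e0
  nlinarith

section avg
variable {T : Type*} [TopologicalSpace T] (H : T →ᵇ 𝕜) (c : Bool → C(T, T))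

/-- Finite stages of the averaging operator. -/
noncomputable def avg : ℕ → (((ℕ → Bool) →ᵇ 𝕜) →L[𝕜] (T →ᵇ 𝕜))
  | 0 => (BoundedContinuousFunction.evalCLM 𝕜 (fun _ => false)).smulRight 1
  | n + 1 => ContinuousLinearMap.mul 𝕜 _ (1 - H) ∘L
        BoundedContinuousFunction.compContinuousCLM 𝕜 𝕜 (c false) ∘L avg n ∘L
        BoundedContinuousFunction.compContinuousCLM 𝕜 𝕜 (cons false) +
      ContinuousLinearMap.mul 𝕜 _ H ∘L
        BoundedContinuousFunction.compContinuousCLM 𝕜 𝕜 (c true) ∘L avg n ∘L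
        BoundedContinuousFunction.compContinuousCLM 𝕜 𝕜 (cons true)

theorem avg_zero (g : (ℕ → Bool) →ᵇ 𝕜) (t : T) : avg H c 0 g t = g (fun _ => false) := by
  simp [avg]

theorem avg_succ (n : ℕ) (g : (ℕ → Bool) →ᵇ 𝕜) (t : T) : avg H c (n + 1) g t =
    (1 - H t) * avg H c n (g.compContinuous (cons false)) (c false t) +
      H t * avg H c n (g.compContinuous (cons true)) (c true t) := by
  simp [avg]
  ring

variable (h : T → ℝ) (hH : ∀ t, H t = h t) (h0 : ∀ t, 0 ≤ h t) (h1 : ∀ t, h t ≤ 1)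
include hH h0 h1

theorem avg_ball (n : ℕ) : ∀ (g : (ℕ → Bool) →ᵇ 𝕜) (v : 𝕜) (ε : ℝ), (∀ x, ‖g x - v‖ ≤ ε) →
    ∀ t, ‖avg H c n g t - v‖ ≤ ε := by
  induction n with
  | zero => intro g v ε hg t; rw [avg_zero]; exact hg _
  | succ n ih =>
    intro g v ε hg t
    have := norm_conv (h0 t) (h1 t)
      (fun _ => ih (g.compContinuous (cons false)) v ε (fun x => hg _) (c false t))
      (fun _ => ih (g.compContinuous (cons true)) v ε (fun x => hg _) (c true t))
    rw [avg_succ, hH]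
    convert this using 2
    ring

theorem avg_cauchy (N : ℕ) : ∀ (g : (ℕ → Bool) →ᵇ 𝕜) (ε : ℝ), Osc N g ε → ∀ n m, N ≤ n → N ≤ m →
    ∀ t, ‖avg H c n g t - avg H c m g t‖ ≤ 2 * ε := by
  induction N with
  | zero =>
    intro g ε hg n m _ _ t
    have e1 := avg_ball H c h hH h0 h1 n g (g fun _ => false) ε (fun x => hg _ _ (by simp)) t
    have e2 := avg_ball H c h hH h0 h1 m g (g fun _ => false) ε (fun x => hg _ _ (by simp)) t
    have e3 := norm_sub_le (avg H c n g t - g fun _ => false) (avg H c m g t - g fun _ => false)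
    rw [sub_sub_sub_cancel_right] at e3
    linarith
  | succ N ih =>
    intro g ε hg n m hn hm t
    obtain ⟨n, rfl⟩ : ∃ k, n = k + 1 := ⟨n - 1, by omega⟩
    obtain ⟨m, rfl⟩ : ∃ k, m = k + 1 := ⟨m - 1, by omega⟩
    have := norm_conv (h0 t) (h1 t)
      (fun _ => ih _ ε (hg.cons false) n m (by omega) (by omega) (c false t))
      (fun _ => ih _ ε (hg.cons true) n m (by omega) (by omega) (c true t))
    rw [avg_succ, avg_succ, hH]
    convert this using 2
    ring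

theorem exists_avg : ∃ A : ((ℕ → Bool) →ᵇ 𝕜) →L[𝕜] (T →ᵇ 𝕜),
    ∀ g t, Tendsto (fun n => avg H c n g t) atTop (𝓝 (A g t)) := by
  have hc : ∀ g, ∃ a, Tendsto (fun n => avg H c n g) atTop (𝓝 a) := by
    intro g
    refine cauchySeq_tendsto_of_complete (Metric.cauchySeq_iff.2 fun ε hε => ?_)
    obtain ⟨N, hN⟩ := exists_osc g (show 0 < ε / 4 by positivity)
    refine ⟨N, fun n hn m hm => ?_⟩
    refine lt_of_le_of_lt ((BoundedContinuousFunction.dist_le (C := 2 * (ε / 4))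
      (by positivity)).2 fun t => ?_) (by linarith)
    rw [dist_eq_norm]
    exact avg_cauchy H c h hH h0 h1 N g _ hN n m hn hm t
  choose A hA using hc
  have hb : ∀ g, ‖A g‖ ≤ 1 * ‖g‖ := by
    intro g
    refine le_of_tendsto' (hA g).norm fun n => ?_
    rw [one_mul, BoundedContinuousFunction.norm_le (norm_nonneg _)]
    intro t
    simpa using avg_ball H c h hH h0 h1 n g 0 ‖g‖ (fun x => by simpa using g.norm_coe_le_norm x) t
  refine ⟨LinearMap.mkContinuous
    { toFun := A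
      map_add' := fun y z => tendsto_nhds_unique (hA (y + z)) (by simpa using (hA y).add (hA z))
      map_smul' := fun a y => tendsto_nhds_unique (hA (a • y))
        (by simpa using (hA y).const_smul a) } 1 hb, fun g t => ?_⟩
  exact ((BoundedContinuousFunction.evalCLM 𝕜 t).continuous.tendsto _).comp (hA g)

/-- Extension operators. -/
theorem avg_ext (ι : (ℕ → Bool) → T) (hc : ∀ b x, c b (ι (cons b x)) = ι x)
    (hh : ∀ b x, h (ι (cons b x)) = cond b 1 0) (N : ℕ) :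
    ∀ (g : (ℕ → Bool) →ᵇ 𝕜) (ε : ℝ), Osc N g ε → ∀ n, N ≤ n → ∀ x,
      ‖avg H c n g (ι x) - g x‖ ≤ ε := by
  induction N with
  | zero =>
    intro g ε hg n _ x
    exact avg_ball H c h hH h0 h1 n g (g x) ε (fun y => hg _ _ (by simp)) _
  | succ N ih =>
    intro g ε hg n hn x
    obtain ⟨n, rfl⟩ : ∃ k, n = k + 1 := ⟨n - 1, by omega⟩
    obtain ⟨b, y, rfl⟩ : ∃ b y, x = cons b y :=
      ⟨x 0, fun n => x (n + 1), funext fun n => by cases n <;> rfl⟩
    have := ih _ ε (hg.cons b) n (by omega) y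
    rw [avg_succ, hH, hh]
    cases b
    · simpa [hc] using this
    · simpa [hc] using this

end avg

end Pool.Agent.H79Z.Shai
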