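import Pool.Agent.H79Z.ShaiD

set_option autoImplicit false

namespace Pool.Agent.H79Z.Shai

open Filter Topology Set Function
open scoped BoundedContinuousFunction

variable {𝕜 : Type*} [RCLike 𝕜]

/-- Averaging operators. -/
theorem avg_proj {T : Type*} [PseudoMetricSpace T] (H : T →ᵇ 𝕜) (c : Bool → C(T, T))
    (h : T → ℝ) (hH : ∀ t, H t = h t) (h0 : ∀ t, 0 ≤ h t) (h1 : ∀ t, h t ≤ 1)
    (π : C(ℕ → Bool, T)) (F : Bool → C(T, T)) (hπ : ∀ b x, π (cons b x) = F b (π x))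
    (hF1 : ∀ t, h t ≠ 0 → F true (c true t) = t) (hF0 : ∀ t, h t ≠ 1 → F false (c false t) = t)
    (l : ℝ) (hl : 0 ≤ l) (hF : ∀ b s t, dist (F b s) (F b t) ≤ l * dist s t)
    (hd : ∀ s t : T, dist s t ≤ 1) (N : ℕ) :
    ∀ (f : T →ᵇ 𝕜) (ε : ℝ), (∀ s t, dist s t ≤ l ^ N → ‖f s - f t‖ ≤ ε) → ∀ n, N ≤ n → ∀ t,
      ‖avg H c n (f.compContinuous π) t - f t‖ ≤ ε := by
  induction N with
  | zero =>
    intro f ε hf n _ t
    exact avg_ball H c h hH h0 h1 n _ (f t) ε (fun y => hf _ _ (by simpa using hd _ _)) _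
  | succ N ih =>
    intro f ε hf n hn t
    obtain ⟨n, rfl⟩ : ∃ k, n = k + 1 := ⟨n - 1, by omega⟩
    have key : ∀ b, ‖avg H c n ((f.compContinuous π).compContinuous (cons b)) (c b t) -
        f (F b (c b t))‖ ≤ ε := by
      intro b
      have e : (f.compContinuous π).compContinuous (cons b) =
          (f.compContinuous (F b)).compContinuous π := by
        ext x; simp [hπ]
      rw [e]
      refine ih (f.compContinuous (F b)) ε (fun s t hst => hf _ _ ((hF b s t).trans ?_)) n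
        (by omega) _
      rw [pow_succ']
      gcongr
    have := norm_conv (h0 t) (h1 t) 
      (fun h' => by simpa only [hF0 t h'] using key false)
      (fun h' => by simpa only [hF1 t h'] using key true)
      (a := avg H c n ((f.compContinuous π).compContinuous (cons false)) (c false t) - f t)
      (b := avg H c n ((f.compContinuous π).compContinuous (cons true)) (c true t) - f t)
    rw [avg_succ, hH]
    convert this using 2
    ring

/-- The digit as a real number. -/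
def dig (b : Bool) : ℝ := cond b 1 0

theorem dig_mem (b : Bool) : 0 ≤ dig b ∧ dig b ≤ 1 := by cases b <;> simp [dig]

section
variable (l : ℝ) (hl0 : 0 < l) (hl1 : l < 1)

/-- The contractions of the interval. -/
noncomputable def ctr (b : Bool) : C(Icc (0 : ℝ) 1, Icc (0 : ℝ) 1) :=
  ⟨fun s => ⟨l * s + (1 - l) * dig b, by
      have := s.2.1; have := s.2.2; have := dig_mem b
      constructor <;> nlinarith⟩, by fun_prop⟩

/-- Their clamped inverses. -/
noncomputable def inv (b : Bool) : C(Icc (0 : ℝ) 1, Icc (0 : ℝ) 1) :=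
  ⟨fun t => projIcc 0 1 zero_le_one ((t - (1 - l) * dig b) / l),
    continuous_projIcc.comp (by fun_prop)⟩

theorem inv_ctr (b : Bool) (s : Icc (0 : ℝ) 1) : inv l b (ctr l hl0 hl1 b s) = s := by
  change projIcc 0 1 zero_le_one ((l * s + (1 - l) * dig b - (1 - l) * dig b) / l) = s
  rw [add_sub_cancel_right, mul_div_cancel_left₀ _ hl0.ne', projIcc_val]

theorem ctr_inv (b : Bool) (t : Icc (0 : ℝ) 1) (h1 : (1 - l) * dig b ≤ t)
    (h2 : (t : ℝ) ≤ l + (1 - l) * dig b) : ctr l hl0 hl1 b (inv l b t) = t := by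
  have h : ((t : ℝ) - (1 - l) * dig b) / l ∈ Icc (0 : ℝ) 1 :=
    ⟨div_nonneg (by linarith) hl0.le, (div_le_one hl0).2 (by linarith)⟩
  apply Subtype.ext
  change l * (projIcc 0 1 zero_le_one ((t - (1 - l) * dig b) / l) : ℝ) + (1 - l) * dig b = t
  rw [projIcc_of_mem _ h]
  field_simp
  ring

/-- The coding map. -/
noncomputable def code : C(ℕ → Bool, Icc (0 : ℝ) 1) :=
  ⟨fun x => ⟨(1 - l) * Cardinal.cantorFunction l x, by
      have h1 : 0 ≤ Cardinal.cantorFunction l x :=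
        tsum_nonneg fun n => Cardinal.cantorFunctionAux_nonneg hl0.le
      have h2 : Cardinal.cantorFunction l x ≤ (1 - l)⁻¹ := by
        rw [← tsum_geometric_of_lt_one hl0.le hl1]
        refine (Cardinal.summable_cantor_function x hl0.le hl1).tsum_le_tsum (fun n => ?_)
          (summable_geometric_of_lt_one hl0.le hl1)
        cases h : x n
        · simpa [h] using pow_nonneg hl0.le n
        · simp [h]
      have h3 : 0 < 1 - l := by linarith
      exact ⟨by positivity, by rwa [← le_inv_mul_iff₀ h3, mul_one]⟩⟩, by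
    refine Continuous.subtype_mk (continuous_const.mul ?_) _
    refine continuous_tsum (fun n => ?_) (summable_geometric_of_lt_one hl0.le hl1) fun n x => ?_
    · exact (continuous_of_discreteTopology (f := fun b : Bool => cond b (l ^ n) 0)).comp
        (continuous_apply n)
    · cases h : x n
      · simpa [h] using pow_nonneg hl0.le n
      · simp [h, abs_of_pos hl0]⟩

theorem code_cons (b : Bool) (x : ℕ → Bool) :
    code l hl0 hl1 (cons b x) = ctr l hl0 hl1 b (code l hl0 hl1 x) := by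
  apply Subtype.ext
  change (1 - l) * Cardinal.cantorFunction l (cons b x) =
    l * ((1 - l) * Cardinal.cantorFunction l x) + (1 - l) * dig b
  rw [Cardinal.cantorFunction_succ _ hl0.le hl1]
  change (1 - l) * (dig b + l * Cardinal.cantorFunction l x) = _
  ring

end

/-- The weight. -/
noncomputable def wt (t : Icc (0 : ℝ) 1) : ℝ := projIcc (0 : ℝ) 1 zero_le_one (3 * t - 1)

theorem continuous_wt : Continuous wt :=
  continuous_subtype_val.comp (continuous_projIcc.comp (by fun_prop))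

theorem wt_zero {t : Icc (0 : ℝ) 1} (h : (t : ℝ) ≤ 1 / 3) : wt t = 0 := by
  rw [wt, projIcc_of_le_left _ (by linarith)]

theorem wt_one {t : Icc (0 : ℝ) 1} (h : 2 / 3 ≤ (t : ℝ)) : wt t = 1 := by
  rw [wt, projIcc_of_right_le _ (by linarith)]

/-- The weight as a scalar function. -/
noncomputable def Wt (𝕜 : Type*) [RCLike 𝕜] : Icc (0 : ℝ) 1 →ᵇ 𝕜 :=
  BoundedContinuousFunction.mkOfCompact ⟨fun t => (wt t : 𝕜),
    RCLike.continuous_ofReal.comp continuous_wt⟩

theorem exists_ext : ∃ (α : ((ℕ → Bool) →ᵇ 𝕜) →L[𝕜] (Icc (0 : ℝ) 1 →ᵇ 𝕜))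
    (β : (Icc (0 : ℝ) 1 →ᵇ 𝕜) →L[𝕜] ((ℕ → Bool) →ᵇ 𝕜)), ∀ f, β (α f) = f := by
  have hl0 : (0 : ℝ) < 1 / 3 := by norm_num
  have hl1 : (1 / 3 : ℝ) < 1 := by norm_num
  have h0 : ∀ t, 0 ≤ wt t := fun t => (projIcc (0 : ℝ) 1 zero_le_one _).2.1
  have h1 : ∀ t, wt t ≤ 1 := fun t => (projIcc (0 : ℝ) 1 zero_le_one _).2.2
  obtain ⟨A, hA⟩ := exists_avg (Wt 𝕜) (inv (1 / 3)) wt (fun _ => rfl) h0 h1
  refine ⟨A, BoundedContinuousFunction.compContinuousCLM 𝕜 𝕜 (code _ hl0 hl1), fun g => ?_⟩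
  ext x
  change A g (code _ hl0 hl1 x) = g x
  refine sub_eq_zero.1 (norm_le_zero_iff.1 (le_of_forall_pos_le_add fun ε hε => ?_))
  obtain ⟨N, hN⟩ := exists_osc g hε
  rw [zero_add]
  refine le_of_tendsto ((hA g _).sub_const _).norm ?_
  filter_upwards [eventually_ge_atTop N] with n hn
  refine avg_ext (Wt 𝕜) (inv (1 / 3)) wt (fun _ => rfl) h0 h1 (code _ hl0 hl1)
    (fun b x => by rw [code_cons, inv_ctr]) (fun b x => ?_) N g ε hN n hn x
  rw [code_cons]
  have e1 := (code _ hl0 hl1 x).2.1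
  have e2 := (code _ hl0 hl1 x).2.2
  cases b
  · refine wt_zero ?_
    change 1 / 3 * (code _ hl0 hl1 x : ℝ) + (1 - 1 / 3) * 0 ≤ _
    linarith
  · refine wt_one ?_
    change _ ≤ 1 / 3 * (code _ hl0 hl1 x : ℝ) + (1 - 1 / 3) * 1
    linarith

theorem exists_milutin : ∃ (γ : (Icc (0 : ℝ) 1 →ᵇ 𝕜) →L[𝕜] ((ℕ → Bool) →ᵇ 𝕜))
    (δ : ((ℕ → Bool) →ᵇ 𝕜) →L[𝕜] (Icc (0 : ℝ) 1 →ᵇ 𝕜)), ∀ f, δ (γ f) = f := by
  have hl0 : (0 : ℝ) < 2 / 3 := by norm_num
  have hl1 : (2 / 3 : ℝ) < 1 := by norm_num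
  have h0 : ∀ t, 0 ≤ wt t := fun t => (projIcc (0 : ℝ) 1 zero_le_one _).2.1
  have h1 : ∀ t, wt t ≤ 1 := fun t => (projIcc (0 : ℝ) 1 zero_le_one _).2.2
  obtain ⟨A, hA⟩ := exists_avg (Wt 𝕜) (inv (2 / 3)) wt (fun _ => rfl) h0 h1
  refine ⟨BoundedContinuousFunction.compContinuousCLM 𝕜 𝕜 (code _ hl0 hl1), A, fun f => ?_⟩
  ext t
  change A (f.compContinuous (code _ hl0 hl1)) t = f t
  refine sub_eq_zero.1 (norm_le_zero_iff.1 (le_of_forall_pos_le_add fun ε hε => ?_))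
  obtain ⟨δ, hδ, hf⟩ := Metric.uniformContinuous_iff.1
    (CompactSpace.uniformContinuous_of_continuous f.continuous) ε hε
  obtain ⟨N, hN⟩ := exists_pow_lt_of_lt_one hδ hl1
  rw [zero_add]
  refine le_of_tendsto ((hA _ _).sub_const _).norm ?_
  filter_upwards [eventually_ge_atTop N] with n hn
  refine avg_proj (Wt 𝕜) (inv (2 / 3)) wt (fun _ => rfl) h0 h1 (code _ hl0 hl1) (ctr _ hl0 hl1)
    (code_cons _ hl0 hl1) (fun t ht => ctr_inv _ _ _ _ _ ?_ ?_) (fun t ht => ctr_inv _ _ _ _ _ ?_ ?_)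
    (2 / 3) hl0.le (fun b s t => ?_) (fun s t => ?_) N f ε (fun s t hst => ?_) n hn t
  · have : ¬ (t : ℝ) ≤ 1 / 3 := fun h => ht (wt_zero h)
    simp only [dig, cond_true]; linarith
  · have := t.2.2
    simp only [dig, cond_true]; linarith
  · have := t.2.1
    simp only [dig, cond_false]; linarith
  · have : ¬ 2 / 3 ≤ (t : ℝ) := fun h => ht (wt_one h)
    simp only [dig, cond_false]; linarith
  · rw [Subtype.dist_eq, Subtype.dist_eq, Real.dist_eq, Real.dist_eq]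
    change |2 / 3 * (s : ℝ) + (1 - 2 / 3) * dig b - (2 / 3 * t + (1 - 2 / 3) * dig b)| ≤ _
    rw [add_sub_add_right_eq_sub, ← mul_sub, abs_mul, abs_of_pos hl0]
  · rw [Subtype.dist_eq, Real.dist_eq, abs_le]
    have := s.2.1; have := s.2.2; have := t.2.1; have := t.2.2
    constructor <;> linarith
  · rw [← dist_eq_norm]
    exact (hf (hst.trans_lt hN)).le

/-- SHAI for `C[0,1]`. -/
theorem shai_interval {Y : Type*} [NormedAddCommGroup Y] [NormedSpace 𝕜 Y] [CompleteSpace Y]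
    [Nontrivial Y] (ψ : (C(Icc (0 : ℝ) 1, 𝕜) →L[𝕜] C(Icc (0 : ℝ) 1, 𝕜)) →ₗ[𝕜] (Y →L[𝕜] Y))
    (hm : ∀ S T, ψ (S * T) = ψ S * ψ T) (hs : Surjective ψ) : Injective ψ := by
  obtain ⟨α, β, h1⟩ := exists_ext (𝕜 := 𝕜)
  obtain ⟨γ, δ, h2⟩ := exists_milutin (𝕜 := 𝕜)
  let e := (ContinuousMap.linearIsometryBoundedOfCompact (Icc (0 : ℝ) 1) 𝕜 𝕜).toContinuousLinearEquiv
  exact shai_of_cantor ((e.symm : _ →L[𝕜] _) ∘L α) (β ∘L (e : _ →L[𝕜] _)) (fun f => by simp [h1])
    (γ ∘L (e : _ →L[𝕜] _)) ((e.symm : _ →L[𝕜] _) ∘L δ) (fun f => by simp [h2]) ψ hm hs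

end Pool.Agent.H79Z.Shai
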