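import Pool.Agent.H79Z.ShaiB

set_option autoImplicit false

namespace Pool.Agent.H79Z.Shai

open Filter Topology Set Function Cardinal
open scoped BoundedContinuousFunction

universe u

/-- Rosenthal's lemma for an arbitrary infinite index set (Kupka's argument). -/
theorem rosenthal {ι : Type u} (e : ι × ι ≃ ι) (m : ι → Set ι → ℝ)
    (hadd : ∀ i A B, Disjoint A B → m i A + m i B ≤ m i (A ∪ B)) (h0 : ∀ i A, 0 ≤ m i A)
    {ε : ℝ} (hε : 0 ≤ ε) (n : ℕ) : ∀ a : ι → ι, Injective a → (∀ i, m (a i) (range a) ≤ n * ε) →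
      ∃ b : ι → ι, Injective b ∧ ∀ i, m (b i) (range b \ {b i}) ≤ ε := by
  have hmono : ∀ i A B, A ⊆ B → m i A ≤ m i B := by
    intro i A B h
    have := hadd i A (B \ A) disjoint_sdiff_right
    rw [union_sdiff_cancel h] at this
    linarith [h0 i (B \ A)]
  suffices H : ∀ a : ι → ι, Injective a → (∀ i, m (a i) (range a) ≤ n * ε) →
      ∃ b : ι → ι, Injective b ∧ range b ⊆ range a ∧ ∀ i, m (b i) (range b \ {b i}) ≤ ε by
    intro a ha h
    obtain ⟨b, h1, -, h2⟩ := H a ha h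
    exact ⟨b, h1, h2⟩
  induction n with
  | zero =>
    intro a ha h
    refine ⟨a, ha, subset_rfl, fun i => ((hmono _ _ _ sdiff_subset).trans (h i)).trans ?_⟩
    simpa using hε
  | succ n ih =>
    intro a ha h
    by_cases hc : ∀ α, ∃ ξ, m (a (e (α, ξ))) (range a \ range fun η => a (e (α, η))) ≤ ε
    · choose ξ hξ using hc
      refine ⟨fun α => a (e (α, ξ α)), fun α β hαβ => ?_, ?_, fun α => (hmono _ _ _ ?_).trans (hξ α)⟩
      · exact congrArg Prod.fst (e.injective (ha hαβ))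
      · rintro _ ⟨α, rfl⟩
        exact mem_range_self _
      · rintro _ ⟨⟨β, rfl⟩, hβ⟩
        refine ⟨mem_range_self _, ?_⟩
        rintro ⟨η, hη⟩
        obtain rfl : α = β := congrArg Prod.fst (e.injective (ha hη))
        exact hβ rfl
    · push Not at hc
      obtain ⟨α, hα⟩ := hc
      have hsub : (range fun η => a (e (α, η))) ⊆ range a := by
        rintro _ ⟨η, rfl⟩
        exact mem_range_self _
      obtain ⟨b, h1, h2, h3⟩ := ih (fun η => a (e (α, η)))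
        (fun η η' h => congrArg Prod.snd (e.injective (ha h))) (fun η => by
          have e1 := hadd (a (e (α, η))) _ _
            (disjoint_sdiff_right (s := range fun η => a (e (α, η))) (t := range a))
          rw [union_sdiff_cancel hsub] at e1
          have e2 := hα η
          have e3 := h (e (α, η))
          push_cast at e3
          linarith)
      exact ⟨b, h1, h2.trans hsub, h3⟩

/-- A family of almost everywhere different functions that is not exhausted by `#ι` members. -/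
theorem exists_evdiff (ι : Type u) [Infinite ι] : ∃ G : Set (ι → ι),
    (∀ g ∈ G, ∀ h ∈ G, g ≠ h → #{ξ | g ξ = h ξ} < #ι) ∧ ¬ #G ≤ #ι := by
  obtain ⟨G, hG⟩ := zorn_subset {G : Set (ι → ι) | ∀ g ∈ G, ∀ h ∈ G, g ≠ h → #{ξ | g ξ = h ξ} < #ι}
    (by
      intro c hc hchain
      refine ⟨⋃₀ c, ?_, fun s hs => subset_sUnion_of_mem hs⟩
      rintro g ⟨s, hs, hg⟩ h ⟨t, ht, hh⟩ hgh
      rcases hchain.total hs ht with h' | h'
      · exact hc ht g (h' hg) h hh hgh
      · exact hc hs g hg h (h' hh) hgh)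
  refine ⟨G, hG.prop, fun hle => ?_⟩
  obtain ⟨F, hF⟩ : ∃ F : ι → (ι → ι), G ⊆ range F := by
    obtain ⟨j⟩ := (Cardinal.le_def _ _).1 hle
    refine ⟨Function.extend j Subtype.val fun _ => id, fun g hg => ⟨j ⟨g, hg⟩, ?_⟩⟩
    rw [j.injective.extend_apply]
  obtain ⟨r, hr1, hr2⟩ := exists_rel_mk_fibers_lt ι
  have hg : ∀ ξ, ∃ v, ∀ η, r η ξ → F η ξ ≠ v := by
    intro ξ
    by_contra h
    push Not at h
    have : Surjective fun η : {η // r η ξ} => F η ξ := fun v => by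
      obtain ⟨η, h1, h2⟩ := h v
      exact ⟨⟨η, h1⟩, h2⟩
    exact (hr2 ξ).not_ge (mk_le_of_surjective this)
  choose g hg using hg
  have hsmall : ∀ h ∈ G, #{ξ | g ξ = h ξ} < #ι := by
    intro h hh
    obtain ⟨η, rfl⟩ := hF hh
    refine lt_of_le_of_lt (mk_le_mk_of_subset (t := {ξ | ¬ r η ξ}) fun ξ hξ h' => ?_) (hr1 η)
    exact hg ξ η h' (Eq.symm hξ)
  have hmem : g ∈ G := by
    refine hG.mem_of_prop_insert ?_
    rintro a (rfl | ha) b (rfl | hb) hab
    · exact absurd rfl hab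
    · exact hsmall b hb
    · simpa only [eq_comm] using hsmall a ha
    · exact hG.prop a ha b hb hab
  simpa using hsmall g hmem

variable {𝕜 : Type*} [RCLike 𝕜] {Γ : Type u} [TopologicalSpace Γ] [DiscreteTopology Γ]

/-- Weighted transfer operators. -/
theorem exists_op {ι : Type*} (a : ι → Γ) (ha : Injective a) (b : ι → Γ) (w : ι → 𝕜) (C : ℝ)
    (hC : 0 ≤ C) (hw : ∀ i, ‖w i‖ ≤ C) : ∃ T : (Γ →ᵇ 𝕜) →L[𝕜] (Γ →ᵇ 𝕜), ‖T‖ ≤ C ∧
      (∀ x i, T x (a i) = w i * x (b i)) ∧ ∀ x γ, γ ∉ range a → T x γ = 0 := by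
  classical
  let W : Γ →ᵇ 𝕜 := BoundedContinuousFunction.ofNormedAddCommGroupDiscrete
    (Function.extend a w 0) C (fun γ => by
      by_cases h : ∃ i, a i = γ
      · obtain ⟨i, rfl⟩ := h
        rw [ha.extend_apply]; exact hw i
      · rw [Function.extend_apply' _ _ _ h]; simpa using hC)
  have hW1 : ∀ i, W (a i) = w i := fun i => ha.extend_apply _ _ _
  have hW2 : ∀ γ, γ ∉ range a → W γ = 0 := fun γ h => Function.extend_apply' _ _ _ h
  let T : (Γ →ᵇ 𝕜) →L[𝕜] (Γ →ᵇ 𝕜) := ContinuousLinearMap.mul 𝕜 _ W ∘L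
    BoundedContinuousFunction.compContinuousCLM 𝕜 𝕜
      ⟨Function.extend a b id, continuous_of_discreteTopology⟩
  have hT : ∀ x γ, T x γ = W γ * x (Function.extend a b id γ) := fun x γ => rfl
  have h1 : ∀ x i, T x (a i) = w i * x (b i) := fun x i => by rw [hT, hW1, ha.extend_apply]
  have h2 : ∀ x γ, γ ∉ range a → T x γ = 0 := fun x γ h => by rw [hT, hW2 γ h, zero_mul]
  refine ⟨T, ContinuousLinearMap.opNorm_le_bound _ hC fun x => ?_, h1, h2⟩
  rw [BoundedContinuousFunction.norm_le (by positivity)]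
  intro γ
  by_cases h : γ ∈ range a
  · obtain ⟨i, rfl⟩ := h
    rw [h1, norm_mul]
    exact mul_le_mul (hw i) (x.norm_coe_le_norm _) (norm_nonneg _) hC
  · rw [h2 x γ h, norm_zero]; positivity

/-- Coordinate projections. -/
theorem exists_proj : ∃ P : Set Γ → ((Γ →ᵇ 𝕜) →L[𝕜] (Γ →ᵇ 𝕜)),
    (∀ S x γ, γ ∈ S → P S x γ = x γ) ∧ ∀ S x γ, γ ∉ S → P S x γ = 0 := by
  choose P _ h2 h3 using fun S : Set Γ => exists_op (𝕜 := 𝕜) (Subtype.val : S → Γ)
    Subtype.val_injective Subtype.val (fun _ => 1) 1 zero_le_one (fun _ => by simp)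
  refine ⟨P, fun S x γ h => ?_, fun S x γ h => h3 S x γ (by simpa using h)⟩
  simpa using h2 S x ⟨γ, h⟩

theorem superadd (P : Set Γ → ((Γ →ᵇ 𝕜) →L[𝕜] (Γ →ᵇ 𝕜)))
    (hP1 : ∀ S x γ, γ ∈ S → P S x γ = x γ) (hP2 : ∀ S x γ, γ ∉ S → P S x γ = 0)
    (φ : StrongDual 𝕜 (Γ →ᵇ 𝕜)) (A B : Set Γ) (h : Disjoint A B) :
    ‖φ ∘L P A‖ + ‖φ ∘L P B‖ ≤ ‖φ ∘L P (A ∪ B)‖ := by
  refine le_of_forall_pos_le_add fun ε hε => ?_
  obtain ⟨x, hx1, hx2⟩ := (φ ∘L P A).exists_lt_apply_of_lt_opNorm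
    (r := ‖φ ∘L P A‖ - ε / 2) (by linarith)
  obtain ⟨y, hy1, hy2⟩ := (φ ∘L P B).exists_lt_apply_of_lt_opNorm
    (r := ‖φ ∘L P B‖ - ε / 2) (by linarith)
  obtain ⟨s, hs1, hs2⟩ := RCLike.exists_norm_eq_mul_self ((φ ∘L P A) x)
  obtain ⟨t, ht1, ht2⟩ := RCLike.exists_norm_eq_mul_self ((φ ∘L P B) y)
  have hz : ‖s • P A x + t • P B y‖ ≤ 1 := by
    rw [BoundedContinuousFunction.norm_le zero_le_one]
    intro γ
    by_cases h1 : γ ∈ A
    · have h2 : γ ∉ B := disjoint_left.1 h h1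
      simpa [hP1 A x γ h1, hP2 B y γ h2, hs1] using (x.norm_coe_le_norm γ).trans hx1.le
    · by_cases h2 : γ ∈ B
      · simpa [hP2 A x γ h1, hP1 B y γ h2, ht1] using (y.norm_coe_le_norm γ).trans hy1.le
      · simp [hP2 A x γ h1, hP2 B y γ h2]
  have hz2 : P (A ∪ B) (s • P A x + t • P B y) = s • P A x + t • P B y := by
    ext γ
    by_cases h1 : γ ∈ A ∪ B
    · exact hP1 _ _ _ h1
    · rw [hP2 _ _ _ h1]
      simp only [mem_union, not_or] at h1
      simp [hP2 A x γ h1.1, hP2 B y γ h1.2]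
  have h3 := (φ ∘L P (A ∪ B)).le_opNorm_of_le hz
  rw [ContinuousLinearMap.comp_apply, hz2, map_add, map_smul, map_smul, smul_eq_mul, smul_eq_mul,
    mul_one] at h3
  simp only [ContinuousLinearMap.comp_apply] at hs2 ht2 hx2 hy2
  rw [← hs2, ← ht2, ← RCLike.ofReal_add, RCLike.norm_ofReal, abs_of_nonneg (by positivity)] at h3
  linarith

end Pool.Agent.H79Z.Shai
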