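import Pool.Agent.H79Z.ShaiF

set_option autoImplicit false

namespace Pool.Agent.H79Z.Shai

open Filter Topology Set Function Cardinal
open scoped BoundedContinuousFunction

universe u

theorem exists_bound {𝕜 : Type*} [RCLike 𝕜] {X : Type*} [NormedAddCommGroup X] [NormedSpace 𝕜 X]
    {Y : Type*} [NormedAddCommGroup Y] [NormedSpace 𝕜 Y] [CompleteSpace X] [CompleteSpace Y]
    (ψ : (X →L[𝕜] X) →ₗ[𝕜] (Y →L[𝕜] Y)) (hm : ∀ S T, ψ (S * T) = ψ S * ψ T)
    (hs : Surjective ψ) : ∃ M : ℝ, 0 ≤ M ∧ (∀ S, ‖ψ S‖ ≤ M * ‖S‖) ∧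
      ∀ y0 : Y, y0 ≠ 0 → ∃ N : ℝ, 0 < N ∧ ∀ y, ∃ s, ψ s y0 = y ∧ ‖s‖ ≤ N * ‖y‖ := by
  let Ψ : (X →L[𝕜] X) →L[𝕜] (Y →L[𝕜] Y) := ⟨ψ, cont_of_surj ψ hm hs⟩
  refine ⟨‖Ψ‖, Ψ.opNorm_nonneg, fun S => Ψ.le_opNorm S, fun y0 hy0 => ?_⟩
  let ev : (X →L[𝕜] X) →L[𝕜] Y := (ContinuousLinearMap.apply 𝕜 Y y0).comp Ψ
  have hev : Surjective ev := by
    intro y
    obtain ⟨g, -, hg⟩ := exists_dual_vector 𝕜 _ (norm_ne_zero_iff.2 hy0)
    have h0 : (‖y0‖ : 𝕜) ≠ 0 := by exact_mod_cast norm_ne_zero_iff.2 hy0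
    obtain ⟨t, ht⟩ := hs (g.smulRight ((‖y0‖ : 𝕜)⁻¹ • y))
    refine ⟨t, ?_⟩
    change ψ t y0 = y
    simp [ht, hg, smul_smul, h0]
  exact ev.exists_preimage_norm_le hev

variable {𝕜 : Type*} [RCLike 𝕜] {Γ : Type u} [TopologicalSpace Γ] [DiscreteTopology Γ]
  {Y : Type*} [NormedAddCommGroup Y] [NormedSpace 𝕜 Y] [CompleteSpace Y]
  (ψ : ((Γ →ᵇ 𝕜) →L[𝕜] (Γ →ᵇ 𝕜)) →ₗ[𝕜] (Y →L[𝕜] Y)) (hm : ∀ S T, ψ (S * T) = ψ S * ψ T)
  (hs : Surjective ψ) (P : Set Γ → ((Γ →ᵇ 𝕜) →L[𝕜] (Γ →ᵇ 𝕜)))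
  (hP1 : ∀ S x γ, γ ∈ S → P S x γ = x γ) (hP2 : ∀ S x γ, γ ∉ S → P S x γ = 0)

include hm hs hP1 hP2

/-- The range of `ψ (P S)` is separated by `#S` functionals. -/
theorem total_family {ι : Type u} (e : ι × ι ≃ ι) (v : ι → Γ) (hv : Injective v) :
    ∃ g : ι → StrongDual 𝕜 Y, ∀ y, ψ (P (range v)) y = y → (∀ i, g i y = 0) → y = 0 := by
  classical
  by_cases h0 : ∀ y, ψ (P (range v)) y = y → y = 0
  · exact ⟨0, fun y hy _ => h0 y hy⟩
  push Not at h0
  obtain ⟨y0, hy0, hy0'⟩ := h0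
  obtain ⟨f', -, hf'⟩ := exists_dual_vector 𝕜 _ (norm_ne_zero_iff.2 hy0')
  have hn0 : (‖y0‖ : 𝕜) ≠ 0 := by exact_mod_cast norm_ne_zero_iff.2 hy0'
  obtain ⟨f, hf⟩ : ∃ f : StrongDual 𝕜 Y, f y0 = 1 := ⟨(‖y0‖ : 𝕜)⁻¹ • f', by simp [hf', hn0]⟩
  obtain ⟨M, hM, hΨ, -⟩ := exists_bound ψ hm hs
  let emb : ι × ι → Γ := fun p => v (e p)
  have hemb : Injective emb := hv.comp e.injective
  have hrow : ∀ β, Injective fun ξ => emb (β, ξ) := fun β ξ ξ' h =>
    congrArg Prod.snd (hemb h)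
  obtain ⟨D, -, hD1, -⟩ := exists_op (𝕜 := 𝕜) emb hemb (fun p => v p.2) (fun _ => 1) 1
    zero_le_one (fun _ => by simp)
  choose R hR0 hR1 hR2 using fun β => exists_op (𝕜 := 𝕜) v hv (fun ξ => emb (β, ξ)) (fun _ => 1) 1
    zero_le_one (fun _ => by simp)
  choose J hJ0 hJ1 hJ2 using fun β => exists_op (𝕜 := 𝕜) (fun ξ => emb (β, ξ)) (hrow β) v
    (fun _ => 1) 1 zero_le_one (fun _ => by simp)
  simp only [one_mul] at hD1 hR1 hJ1
  have hRJ : ∀ β, R β * J β = P (range v) := by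
    intro β
    ext x γ
    by_cases h : γ ∈ range v
    · obtain ⟨i, rfl⟩ := h
      rw [hP1 _ _ _ (mem_range_self i)]
      exact (hR1 β _ i).trans (hJ1 β x i)
    · rw [hP2 _ _ _ h]; exact hR2 β _ γ h
  have hk : ∀ y β, ‖f (ψ (R β) y)‖ ≤ (‖f‖ * M) * ‖y‖ := by
    intro y β
    refine (f.le_opNorm _).trans ?_
    rw [mul_assoc]
    gcongr
    refine ((ψ (R β)).le_opNorm y).trans ?_
    gcongr
    exact (hΨ _).trans (mul_le_of_le_one_right hM (hR0 β))
  let kf : Y → Γ → 𝕜 := fun y => Function.extend emb (fun p => f (ψ (R p.1) y)) 0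
  have hkf1 : ∀ y p, kf y (emb p) = f (ψ (R p.1) y) := fun y p => hemb.extend_apply _ _ _
  have hkf2 : ∀ y γ, (¬ ∃ p, emb p = γ) → kf y γ = 0 := fun y γ h =>
    Function.extend_apply' _ _ _ h
  have hkf3 : ∀ y γ, ‖kf y γ‖ ≤ (‖f‖ * M) * ‖y‖ := by
    intro y γ
    by_cases h : ∃ p, emb p = γ
    · obtain ⟨p, rfl⟩ := h
      rw [hkf1]; exact hk _ _
    · rw [hkf2 y γ h, norm_zero]; positivity
  let k : Y →L[𝕜] (Γ →ᵇ 𝕜) := LinearMap.mkContinuous
    { toFun := fun y => BoundedContinuousFunction.ofNormedAddCommGroupDiscrete (kf y) _ (hkf3 y)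
      map_add' := fun y z => by
        ext γ
        change kf (y + z) γ = kf y γ + kf z γ
        by_cases h : ∃ p, emb p = γ
        · obtain ⟨p, rfl⟩ := h
          simp [hkf1]
        · simp [hkf2 _ γ h]
      map_smul' := fun a y => by
        ext γ
        change kf (a • y) γ = a * kf y γ
        by_cases h : ∃ p, emb p = γ
        · obtain ⟨p, rfl⟩ := h
          simp [hkf1]
        · simp [hkf2 _ γ h] } (‖f‖ * M)
    (fun y => (BoundedContinuousFunction.norm_le (by positivity)).2 (hkf3 y))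
  have hk1 : ∀ y p, k y (emb p) = f (ψ (R p.1) y) := hkf1
  have hk2 : ∀ y γ, (¬ ∃ p, emb p = γ) → k y γ = 0 := hkf2
  let jj : (Γ →ᵇ 𝕜) →L[𝕜] Y := LinearMap.mkContinuous
    { toFun := fun h => ψ (ContinuousLinearMap.mul 𝕜 _ h * D) y0
      map_add' := fun g h => by simp [add_mul]
      map_smul' := fun a h => by
        have : ContinuousLinearMap.mul 𝕜 _ (a • h) * D =
            a • (ContinuousLinearMap.mul 𝕜 _ h * D) := by
          ext x γ; simp
        rw [this, map_smul]; rfl } (M * ‖D‖ * ‖y0‖) (fun h => by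
      refine (ContinuousLinearMap.le_opNorm _ _).trans ?_
      have h1 : ‖ContinuousLinearMap.mul 𝕜 _ h * D‖ ≤ ‖h‖ * ‖D‖ :=
        (norm_mul_le _ _).trans (mul_le_mul_of_nonneg_right
          (ContinuousLinearMap.opNorm_mul_apply_le _ _ _) (norm_nonneg _))
      calc _ ≤ M * (‖h‖ * ‖D‖) * ‖y0‖ := by
            gcongr
            exact (hΨ _).trans (by gcongr)
        _ = _ := by ring)
  have hjj : ∀ h, jj h = ψ (ContinuousLinearMap.mul 𝕜 _ h * D) y0 := fun h => rfl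
  obtain ⟨T, hT⟩ := hs (jj.comp k)
  have hone : ∀ β, f (ψ (R β * T * J β) y0) = 1 := by
    intro β
    have e1 : R β * (ContinuousLinearMap.mul 𝕜 _ (k (ψ (J β) y0)) * D) = P (range v) := by
      ext x γ
      by_cases h : γ ∈ range v
      · obtain ⟨i, rfl⟩ := h
        rw [hP1 _ _ _ (mem_range_self i)]
        refine (hR1 β _ i).trans ?_
        change k (ψ (J β) y0) (emb (β, i)) * D x (emb (β, i)) = _
        rw [hk1, hD1, ← ContinuousLinearMap.mul_apply, ← hm, hRJ, hy0, hf, one_mul]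
      · rw [hP2 _ _ _ h]; exact hR2 β _ γ h
    rw [hm, hm, hT]
    change f (ψ (R β) (jj (k (ψ (J β) y0)))) = 1
    rw [hjj, ← ContinuousLinearMap.mul_apply, ← hm, e1, hy0, hf]
  set c : ℝ := ‖f‖ * M * ‖y0‖ + 1 with hc
  have hc0 : 0 < c := by positivity
  have hx : ∀ β, ∃ x : Γ →ᵇ 𝕜, ‖x‖ ≤ 1 ∧ ∃ γ, c⁻¹ < ‖T (J β x) γ‖ := by
    intro β
    have h1 : c⁻¹ < ‖T * J β‖ := by
      have h2 : 1 ≤ ‖f‖ * (M * ‖T * J β‖ * ‖y0‖) := by
        have h3 := f.le_opNorm (ψ (R β * T * J β) y0)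
        rw [hone, norm_one] at h3
        refine h3.trans ?_
        gcongr
        refine (ContinuousLinearMap.le_opNorm _ _).trans ?_
        gcongr
        refine (hΨ _).trans ?_
        gcongr
        rw [mul_assoc]
        exact (norm_mul_le _ _).trans (mul_le_of_le_one_left (norm_nonneg _) (hR0 β))
      rw [inv_lt_iff_one_lt_mul₀ hc0]
      by_contra h4
      have h5 : ‖T * J β‖ = 0 := by
        have := norm_nonneg (T * J β)
        nlinarith
      rw [h5] at h2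
      norm_num at h2
    obtain ⟨x, hx1, hx2⟩ := (T * J β).exists_lt_apply_of_lt_opNorm h1
    refine ⟨x, hx1.le, ?_⟩
    by_contra h6
    push Not at h6
    exact hx2.not_ge ((BoundedContinuousFunction.norm_le (by positivity)).2 h6)
  choose x hx1 γ hx2 using hx
  obtain ⟨V, hV0, hV1, hV2⟩ := exists_op (𝕜 := 𝕜) emb hemb (fun p => v p.1)
    (fun p => x p.1 (v p.2)) 1 zero_le_one
    (fun p => ((x p.1).norm_coe_le_norm _).trans (hx1 _))
  let φ : ι → StrongDual 𝕜 (Γ →ᵇ 𝕜) := fun β =>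
    (BoundedContinuousFunction.evalCLM 𝕜 (γ β)).comp (T * V)
  have hφ : ∀ β a, φ β a = T (V a) (γ β) := fun β a => rfl
  have hPn : ∀ S a, ‖P S a‖ ≤ ‖a‖ := by
    intro S a
    rw [BoundedContinuousFunction.norm_le (norm_nonneg _)]
    intro γ
    by_cases h : γ ∈ S
    · rw [hP1 _ _ _ h]; exact a.norm_coe_le_norm _
    · rw [hP2 _ _ _ h, norm_zero]; exact norm_nonneg _
  obtain ⟨n, hn⟩ := exists_nat_ge (‖T * V‖ / (c⁻¹ / 2))
  obtain ⟨b, hb, hb2⟩ := rosenthal e (fun β A => ‖φ β ∘L P (v '' A)‖)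
    (fun β A B h => by
      rw [image_union]
      exact superadd P hP1 hP2 _ _ _ (disjoint_image_of_injective hv h))
    (fun _ _ => norm_nonneg _) (ε := c⁻¹ / 2) (by positivity) n id injective_id (fun β => by
      refine ContinuousLinearMap.opNorm_le_bound _ (by positivity) fun a => ?_
      refine (((T * V) _).norm_coe_le_norm _).trans (((T * V).le_opNorm _).trans ?_)
      rw [div_le_iff₀ (by positivity)] at hn
      exact mul_le_mul hn (hPn _ _) (norm_nonneg _) (by positivity))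
  have hd0 : ∀ β, T (J β (x β)) (γ β) ≠ 0 := fun β =>
    norm_pos_iff.1 ((inv_pos.2 hc0).trans (hx2 β))
  obtain ⟨U, hU0, hU1, hU2⟩ := exists_op (𝕜 := 𝕜) (fun i => v (b i)) (hv.comp hb) v (fun _ => 1) 1
    zero_le_one (fun _ => by simp)
  obtain ⟨W, -, hW1, hW2⟩ := exists_op (𝕜 := 𝕜) v hv (fun i => γ (b i))
    (fun i => (T (J (b i) (x (b i))) (γ (b i)))⁻¹) c hc0.le (fun i => by
      rw [norm_inv]
      exact inv_le_of_inv_le₀ hc0 (hx2 _).le)
  simp only [one_mul] at hU1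
  have hE : ‖W * T * (V * U) - P (range v)‖ ≤ 1 / 2 := by
    refine ContinuousLinearMap.opNorm_le_bound _ (by norm_num) fun a => ?_
    rw [BoundedContinuousFunction.norm_le (by positivity)]
    intro γ'
    change ‖W (T (V (U a))) γ' - P (range v) a γ'‖ ≤ _
    by_cases h : γ' ∈ range v
    · obtain ⟨i, rfl⟩ := h
      have e1 : V (U a) = a (v i) • J (b i) (x (b i)) + V (P (v '' (range b \ {b i})) (U a)) := by
        ext γ''
        by_cases h' : γ'' ∈ range emb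
        · obtain ⟨⟨β, ξ⟩, rfl⟩ := h'
          simp only [BoundedContinuousFunction.add_apply, BoundedContinuousFunction.smul_apply,
            hV1, smul_eq_mul]
          by_cases h1 : β = b i
          · subst h1
            rw [hJ1, hU1, hP2]
            · ring
            · rintro ⟨β, hβ, h2⟩
              exact hβ.2 (hv h2)
          · rw [hJ2]
            · by_cases h2 : β ∈ range b
              · rw [hP1 _ _ _ (mem_image_of_mem v (show β ∈ range b \ {b i} from ⟨h2, h1⟩))]; ring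
              · rw [hU2, hP2]
                · ring
                · rintro ⟨β', hβ', h3⟩
                  exact h2 (hv h3 ▸ hβ'.1)
                · rintro ⟨j, h3⟩
                  exact h2 ⟨j, hv h3⟩
            · rintro ⟨ξ', h3⟩
              exact h1 (congrArg Prod.fst (hemb h3)).symm
        · simp only [BoundedContinuousFunction.add_apply, BoundedContinuousFunction.smul_apply]
          rw [hV2 _ _ h', hV2 _ _ h', hJ2]
          · simp
          · rintro ⟨ξ', h3⟩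
            exact h' ⟨_, h3⟩
      rw [hW1, hP1 _ _ _ (mem_range_self i), e1, map_add, map_smul]
      simp only [BoundedContinuousFunction.add_apply, BoundedContinuousFunction.smul_apply,
        smul_eq_mul]
      rw [mul_add, mul_left_comm, inv_mul_cancel₀ (hd0 _), mul_one, add_sub_cancel_left, norm_mul,
        norm_inv, ← hφ]
      have e2 : ‖φ (b i) (P (v '' (range b \ {b i})) (U a))‖ ≤ c⁻¹ / 2 * ‖a‖ := by
        refine ((φ (b i) ∘L P (v '' (range b \ {b i}))).le_opNorm (U a)).trans ?_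
        refine mul_le_mul (hb2 i) ((U.le_opNorm a).trans ?_) (norm_nonneg _) (by positivity)
        exact mul_le_of_le_one_left (norm_nonneg _) hU0
      calc _ ≤ c * (c⁻¹ / 2 * ‖a‖) :=
            mul_le_mul (inv_le_of_inv_le₀ hc0 (hx2 _).le) e2 (norm_nonneg _) hc0.le
        _ = _ := by field_simp
    · rw [hW2 _ _ h, hP2 _ _ _ h, sub_zero, norm_zero]; positivity
  have hUP : U * P (range v) = U := by
    ext a γ'
    change U (P (range v) a) γ' = _
    by_cases h : γ' ∈ range fun i => v (b i)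
    · obtain ⟨i, rfl⟩ := h
      rw [hU1, hU1, hP1 _ _ _ (mem_range_self i)]
    · rw [hU2 _ _ h, hU2 _ _ h]
  have hPP : P (range v) * P (range v) = P (range v) := by
    ext a γ'
    change P (range v) (P (range v) a) γ' = _
    by_cases h : γ' ∈ range v
    · exact hP1 _ _ _ h
    · rw [hP2 _ _ _ h, hP2 _ _ _ h]
  obtain ⟨w, hw⟩ := (isUnit_one_sub_of_norm_lt_one
    (x := -(W * T * (V * U) - P (range v))) (by rw [norm_neg]; linarith)).exists_left_inv
  have hfac : P (range v) = w * W * T * (V * U) := by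
    have : (1 - -(W * T * (V * U) - P (range v))) * P (range v) = W * T * (V * U) := by
      rw [sub_neg_eq_add, add_mul, sub_mul, hPP, one_mul, mul_assoc, mul_assoc V, hUP]
      abel
    rw [mul_assoc, mul_assoc, ← mul_assoc W, ← this, ← mul_assoc, hw, one_mul]
  refine ⟨fun β => f.comp ((ψ (R β)).comp (ψ (V * U))), fun y hy hg => ?_⟩
  have hk0 : k (ψ (V * U) y) = 0 := by
    ext γ'
    by_cases h : ∃ p, emb p = γ'
    · obtain ⟨p, rfl⟩ := h
      rw [hk1]; exact hg p.1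
    · exact hk2 _ _ h
  rw [← hy, hfac, hm, hm, hT]
  change ψ (w * W) (jj (k (ψ (V * U) y))) = 0
  rw [hk0, map_zero, map_zero]

end Pool.Agent.H79Z.Shai
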