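import Pool.Agent.H79Z.ShaiG

set_option autoImplicit false

namespace Pool.Agent.H79Z.Shai

open Filter Topology Set Function Cardinal
open scoped BoundedContinuousFunction

universe u

theorem shai_linf {𝕜 : Type*} [RCLike 𝕜] {Γ : Type u} [TopologicalSpace Γ] [DiscreteTopology Γ]
    {Y : Type*} [NormedAddCommGroup Y] [NormedSpace 𝕜 Y] [CompleteSpace Y] [Nontrivial Y]
    (ψ : ((Γ →ᵇ 𝕜) →L[𝕜] (Γ →ᵇ 𝕜)) →ₗ[𝕜] (Y →L[𝕜] Y)) (hm : ∀ S T, ψ (S * T) = ψ S * ψ T)
    (hs : Surjective ψ) : Injective ψ := by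
  classical
  by_contra hni
  obtain ⟨P, hP1, hP2⟩ := exists_proj (𝕜 := 𝕜) (Γ := Γ)
  have hPmul : ∀ A B, A ⊆ B → P B * P A = P A := by
    intro A B h
    ext a γ
    change P B (P A a) γ = _
    by_cases h1 : γ ∈ B
    · exact hP1 _ _ _ h1
    · rw [hP2 _ _ _ h1, hP2 _ _ _ fun h2 => h1 (h h2)]
  have hPadd : ∀ A B, P A = P (A \ B) + P (A ∩ B) := by
    intro A B
    ext a γ
    change _ = P (A \ B) a γ + P (A ∩ B) a γ
    by_cases h1 : γ ∈ A
    · by_cases h2 : γ ∈ B
      · rw [hP1 _ _ _ h1, hP2 (A \ B) _ _ (fun h => h.2 h2), hP1 (A ∩ B) _ _ ⟨h1, h2⟩, zero_add]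
      · rw [hP1 _ _ _ h1, hP1 (A \ B) _ _ ⟨h1, h2⟩, hP2 (A ∩ B) _ _ (fun h => h2 h.2), add_zero]
    · rw [hP2 _ _ _ h1, hP2 (A \ B) _ _ (fun h => h1 h.1), hP2 (A ∩ B) _ _ (fun h => h1 h.1),
        add_zero]
  have hsub : ∀ A B, A ⊆ B → ψ (P B) = 0 → ψ (P A) = 0 := by
    intro A B h h0
    rw [← hPmul A B h, hm, h0, zero_mul]
  have hun : ∀ A B, ψ (P A) = 0 → ψ (P B) = 0 → ψ (P (A ∪ B)) = 0 := by
    intro A B hA hB
    rw [hPadd (A ∪ B) B, map_add, hsub _ A (by intro x hx; exact hx.1.resolve_right hx.2) hA,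
      hsub _ B inter_subset_right hB, add_zero]
  have hsing : ∀ a, ψ (P {a}) = 0 := by
    intro a
    have : P {a} = (BoundedContinuousFunction.evalCLM 𝕜 a).smulRight (P {a} 1) := by
      ext x γ
      change _ = x a * P {a} 1 γ
      by_cases h : γ ∈ ({a} : Set Γ)
      · rw [hP1 _ _ _ h, hP1 _ _ _ h, mem_singleton_iff.1 h]; simp
      · rw [hP2 _ _ _ h, hP2 _ _ _ h, mul_zero]
    rw [this]
    exact rank_one ψ hm hni _ _
  have hemp : ψ (P ∅) = 0 := by
    have : P ∅ = 0 := by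
      ext x γ
      exact hP2 _ _ _ (notMem_empty γ)
    rw [this, map_zero]
  have hU : ∀ {κ : Type u} (F : Finset κ) (B : κ → Set Γ), (∀ k ∈ F, ψ (P (B k)) = 0) →
      ψ (P (⋃ k ∈ F, B k)) = 0 := by
    intro κ F B
    induction F using Finset.induction_on with
    | empty => intro _; simpa using hemp
    | insert a F _ ih =>
      intro h
      rw [Finset.set_biUnion_insert]
      exact hun _ _ (h a (Finset.mem_insert_self _ _))
        (ih fun k hk => h k (Finset.mem_insert_of_mem hk))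
  have huniv : ψ (P univ) ≠ 0 := by
    have : P univ = 1 := by
      ext x γ
      exact hP1 _ _ _ (mem_univ γ)
    rw [this, map_one_of_surj ψ hm hs]
    exact one_ne_zero
  obtain ⟨S, hS, hmin⟩ := (InvImage.wf (fun S : Set Γ => #S) Cardinal.lt_wf).has_min
    {S | ψ (P S) ≠ 0} ⟨univ, huniv⟩
  have hsmall : ∀ A : Set Γ, #A < #S → ψ (P A) = 0 := fun A h => by
    by_contra h'
    exact hmin A h' h
  have hinf : S.Infinite := by
    intro hfin
    refine hS ?_
    have := hU hfin.toFinset (fun a => {a}) fun a _ => hsing a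
    simpa using this
  have : Infinite S := hinf.to_subtype
  obtain ⟨e⟩ : Nonempty (S × S ≃ S) := Cardinal.eq.1 (by simp)
  obtain ⟨G, hG1, hG2⟩ := exists_evdiff S
  obtain ⟨φ, hφ⟩ := total_family ψ hm hs P hP1 hP2 e (Subtype.val : S → Γ) Subtype.val_injective
  rw [Subtype.range_coe] at hφ
  let a : (S → S) → S → Γ := fun g ξ => e (ξ, g ξ)
  have ha : ∀ g, Injective (a g) := fun g ξ η h =>
    congrArg Prod.fst (e.injective (Subtype.val_injective h))
  have haS : ∀ g, range (a g) ⊆ S := by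
    rintro g _ ⟨ξ, rfl⟩
    exact (e _).2
  have hne : ∀ g, ψ (P (range (a g))) ≠ 0 := by
    intro g h0
    obtain ⟨T, -, hT1, hT2⟩ := exists_op (𝕜 := 𝕜) (Subtype.val : S → Γ) Subtype.val_injective
      (a g) (fun _ => 1) 1 zero_le_one (fun _ => by simp)
    obtain ⟨T', -, hT1', -⟩ := exists_op (𝕜 := 𝕜) (a g) (ha g) (Subtype.val : S → Γ)
      (fun _ => 1) 1 zero_le_one (fun _ => by simp)
    have : P S = T * P (range (a g)) * T' := by
      ext x γ
      change _ = T (P (range (a g)) (T' x)) γ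
      by_cases h : γ ∈ S
      · rw [hP1 _ _ _ h, hT1 _ ⟨γ, h⟩, hP1 _ _ _ (mem_range_self _), hT1']; simp
      · rw [hP2 _ _ _ h, hT2 _ _ (by simpa using h)]
    refine hS ?_
    rw [this, hm, hm, h0, mul_zero, zero_mul]
  have hy : ∀ g, ∃ y : Y, y ≠ 0 ∧ ‖y‖ ≤ 1 ∧ ψ (P (range (a g))) y = y := by
    intro g
    obtain ⟨z, hz⟩ : ∃ z, ψ (P (range (a g))) z ≠ 0 := by
      by_contra h
      push Not at h
      exact hne g (ContinuousLinearMap.ext h)
    have h0 : (‖ψ (P (range (a g))) z‖ : 𝕜) ≠ 0 := by exact_mod_cast norm_ne_zero_iff.2 hz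
    refine ⟨(‖ψ (P (range (a g))) z‖ : 𝕜)⁻¹ • ψ (P (range (a g))) z,
      smul_ne_zero (inv_ne_zero h0) hz, ?_, ?_⟩
    · rw [norm_smul, norm_inv, RCLike.norm_ofReal, abs_norm,
        inv_mul_cancel₀ (norm_ne_zero_iff.2 hz)]
    · rw [map_smul, ← ContinuousLinearMap.mul_apply, ← hm, hPmul _ _ subset_rfl]
  choose y hy0 hy1 hy2 using hy
  obtain ⟨M, hM, hΨ, hN⟩ := exists_bound ψ hm hs
  obtain ⟨y0, hy0'⟩ := exists_ne (0 : Y)
  obtain ⟨N, hN0, hN1⟩ := hN y0 hy0'
  choose s hs1 hs2 using hN1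
  have hest : ∀ (F : Finset G) (c : G → 𝕜), (∀ g, ‖c g‖ = 1) →
      ‖∑ g ∈ F, c g • y g‖ ≤ M * N * ‖y0‖ := by
    intro F c hc
    let A : G → Set Γ := fun g => range (a g) \ ⋃ h ∈ F.erase g, range (a g) ∩ range (a h)
    have hA : ∀ g, ψ (P (A g)) = ψ (P (range (a g))) := by
      intro g
      rw [hPadd (range (a g)) (⋃ h ∈ F.erase g, range (a g) ∩ range (a h)), map_add,
        hsub _ _ inter_subset_right (hU _ _ fun h hh => hsmall _ ?_), add_zero]
      refine lt_of_le_of_lt ((mk_le_mk_of_subset (t := a g '' {ξ | g.1 ξ = h.1 ξ}) ?_).trans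
        mk_image_le) (hG1 _ g.2 _ h.2 fun h' => Finset.ne_of_mem_erase hh (Subtype.ext h').symm)
      rintro _ ⟨⟨ξ, rfl⟩, η, h1⟩
      have h2 := e.injective (Subtype.val_injective h1)
      obtain rfl : η = ξ := congrArg Prod.fst h2
      exact ⟨η, (congrArg Prod.snd h2).symm, rfl⟩
    have hT : ‖∑ g ∈ F, c g • (P (A g) * s (y g))‖ ≤ N := by
      refine ContinuousLinearMap.opNorm_le_bound _ hN0.le fun x => ?_
      rw [BoundedContinuousFunction.norm_le (by positivity)]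
      intro γ
      have e1 : (∑ g ∈ F, c g • (P (A g) * s (y g))) x γ =
          ∑ g ∈ F, c g * P (A g) (s (y g) x) γ := by
        simp [BoundedContinuousFunction.sum_apply]
      rw [e1]
      by_cases h : ∃ g ∈ F, γ ∈ A g
      · obtain ⟨g, hg, hγ⟩ := h
        rw [Finset.sum_eq_single g, hP1 _ _ _ hγ, norm_mul, hc, one_mul]
        · refine ((s (y g) x).norm_coe_le_norm _).trans (((s (y g)).le_opNorm x).trans ?_)
          gcongr
          exact (hs2 _).trans (mul_le_of_le_one_right hN0.le (hy1 _))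
        · intro h hh hne'
          rw [hP2, mul_zero]
          intro h1
          exact hγ.2 (mem_biUnion (Finset.mem_coe.2 (Finset.mem_erase.2 ⟨hne', hh⟩)) ⟨hγ.1, h1.1⟩)
        · intro h; exact absurd hg h
      · push Not at h
        rw [Finset.sum_eq_zero fun g hg => by rw [hP2 _ _ _ (h g hg), mul_zero], norm_zero]
        positivity
    have e2 : ψ (∑ g ∈ F, c g • (P (A g) * s (y g))) y0 = ∑ g ∈ F, c g • y g := by
      rw [map_sum, ContinuousLinearMap.sum_apply]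
      refine Finset.sum_congr rfl fun g _ => ?_
      rw [map_smul, hm, hA, ContinuousLinearMap.smul_apply, ContinuousLinearMap.mul_apply, hs1, hy2]
    rw [← e2]
    refine (ContinuousLinearMap.le_opNorm _ _).trans ?_
    gcongr
    exact (hΨ _).trans (by gcongr)
  have hcount : ∀ i, (support fun g : G => ‖φ i (y g)‖).Countable := by
    intro i
    refine Summable.countable_support (summable_of_sum_le (c := ‖φ i‖ * (M * N * ‖y0‖))
      (fun _ => norm_nonneg _) fun F => ?_)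
    choose c hc1 hc2 using fun g : G => RCLike.exists_norm_eq_mul_self (φ i (y g))
    have e3 : ((∑ g ∈ F, ‖φ i (y g)‖ : ℝ) : 𝕜) = φ i (∑ g ∈ F, c g • y g) := by
      rw [map_sum]
      push_cast
      exact Finset.sum_congr rfl fun g _ => (hc2 g).trans (by rw [map_smul, smul_eq_mul])
    have e4 := (φ i).le_opNorm (∑ g ∈ F, c g • y g)
    rw [← e3, RCLike.norm_ofReal] at e4
    exact (le_abs_self _).trans (e4.trans (by gcongr; exact hest F c hc1))
  refine hG2 ?_
  have hcov : (univ : Set G) ⊆ ⋃ i, support fun g : G => ‖φ i (y g)‖ := by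
    intro g _
    by_contra h
    simp only [mem_iUnion, mem_support, not_exists, not_not, norm_eq_zero] at h
    refine hy0 g (hφ _ ?_ h)
    rw [← hy2 g, ← ContinuousLinearMap.mul_apply, ← hm, hPmul _ _ (haS g)]
  calc #G = #(univ : Set G) := mk_univ.symm
    _ ≤ _ := mk_le_mk_of_subset hcov
    _ ≤ _ := mk_iUnion_le_sum_mk
    _ ≤ Cardinal.sum fun _ : S => #S := Cardinal.sum_le_sum _ _ fun i =>
        (le_aleph0_iff_set_countable.2 (hcount i)).trans (aleph0_le_mk S)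
    _ = #S := by simp

theorem shai_stoneCech {𝕜 : Type*} [RCLike 𝕜] {Γ : Type u} [TopologicalSpace Γ]
    [DiscreteTopology Γ] {Y : Type*} [NormedAddCommGroup Y] [NormedSpace 𝕜 Y] [CompleteSpace Y]
    [Nontrivial Y] (ψ : (C(StoneCech Γ, 𝕜) →L[𝕜] C(StoneCech Γ, 𝕜)) →ₗ[𝕜] (Y →L[𝕜] Y))
    (hm : ∀ S T, ψ (S * T) = ψ S * ψ T) (hs : Surjective ψ) : Injective ψ := by
  let r : C(StoneCech Γ, 𝕜) →L[𝕜] (Γ →ᵇ 𝕜) :=
    BoundedContinuousFunction.compContinuousCLM 𝕜 𝕜 ⟨stoneCechUnit, continuous_stoneCechUnit⟩ ∘L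
      ((ContinuousMap.linearIsometryBoundedOfCompact (StoneCech Γ) 𝕜 𝕜).toContinuousLinearEquiv :
        C(StoneCech Γ, 𝕜) →L[𝕜] (StoneCech Γ →ᵇ 𝕜))
  have hr : ∀ f γ, r f γ = f (stoneCechUnit γ) := fun f γ => rfl
  have hri : Injective r := by
    intro f g h
    ext1 p
    exact congrFun (stoneCech_hom_ext f.continuous g.continuous
      (funext fun γ => by simpa [hr] using DFunLike.congr_fun h γ)) p
  have hrs : Surjective r := by
    intro x
    let x' : Γ → Metric.closedBall (0 : 𝕜) ‖x‖ := fun γ =>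
      ⟨x γ, mem_closedBall_zero_iff.2 (x.norm_coe_le_norm γ)⟩
    have : CompactSpace (Metric.closedBall (0 : 𝕜) ‖x‖) :=
      isCompact_iff_compactSpace.1 (isCompact_closedBall _ _)
    have hx' : Continuous x' := continuous_of_discreteTopology
    refine ⟨⟨fun p => (stoneCechExtend hx' p).1,
      continuous_subtype_val.comp (continuous_stoneCechExtend hx')⟩, ?_⟩
    ext γ
    rw [hr]
    exact congrArg Subtype.val (stoneCechExtend_stoneCechUnit hx' γ)
  let E : C(StoneCech Γ, 𝕜) ≃L[𝕜] (Γ →ᵇ 𝕜) := ContinuousLinearEquiv.ofBijective r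
    (LinearMap.ker_eq_bot.2 hri) (LinearMap.range_eq_top.2 hrs)
  let Φ := E.symm.conjContinuousAlgEquiv
  have := shai_linf (ψ ∘ₗ Φ.toAlgEquiv.toLinearMap) (fun S T => by simp [hm])
    (hs.comp Φ.surjective)
  exact Injective.of_comp_right this Φ.surjective

end Pool.Agent.H79Z.Shai
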